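import Mathlib

/-!
Definitions for the problem on optimal potentials for Schroedinger eigenvalues.
-/

set_option autoImplicit false

open MeasureTheory
open scoped ENNReal InnerProductSpace

namespace Pool.Agent.P.MP_5ab436_an

/-- Euclidean space `ℝ^d`, with Lebesgue measure `volume`. -/
abbrev Rd (d : ℕ) : Type := EuclideanSpace ℝ (Fin d)

/-- `g` is the weak (distributional) gradient of `u`: for every smooth compactly supported test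
function `φ` and every direction `e`, `∫ u ∂_e φ = - ∫ ⟨g, e⟩ φ`. -/
def IsWeakGradient {d : ℕ} (u : Rd d → ℝ) (g : Rd d → Rd d) : Prop :=
  ∀ φ : Rd d → ℝ, ContDiff ℝ (⊤ : ℕ∞) φ → HasCompactSupport φ → ∀ e : Rd d,
    ∫ x, u x * fderiv ℝ φ x e = -∫ x, ⟪g x, e⟫_ℝ * φ x

/-- The space `H¹_V(ℝ^d)`: the `u ∈ L²` having a weak gradient in `L²`, with `∫ V u² < ∞`. -/
def H1V {d : ℕ} (V : Rd d → ℝ≥0∞) : Set (Lp ℝ 2 (volume : Measure (Rd d))) :=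
  {u | (∃ g : Lp (Rd d) 2 (volume : Measure (Rd d)), IsWeakGradient u g) ∧
    ∫⁻ x, V x * ‖u x‖ₑ ^ 2 < ⊤}

/-- The quadratic form `∫ |∇u|² + ∫ V u²` (the weak gradient is unique when it exists, so the
infimum just picks it). -/
noncomputable def energy {d : ℕ} (V : Rd d → ℝ≥0∞) (u : Lp ℝ 2 (volume : Measure (Rd d))) :
    ℝ≥0∞ :=
  (⨅ (g : Lp (Rd d) 2 (volume : Measure (Rd d))) (_ : IsWeakGradient u g), ∫⁻ x, ‖g x‖ₑ ^ 2) +
    ∫⁻ x, V x * ‖u x‖ₑ ^ 2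

/-- The `k`-th min-max eigenvalue `λ_k(V)` of `-Δ + V`: the infimum, over `k`-dimensional
subspaces `S` of `H¹_V`, of the supremum over `u ∈ S \ {0}` of the Rayleigh quotient. -/
noncomputable def eigenvalue {d : ℕ} (V : Rd d → ℝ≥0∞) (k : ℕ) : ℝ≥0∞ :=
  ⨅ (S : Submodule ℝ (Lp ℝ 2 (volume : Measure (Rd d)))) (_ : Module.finrank ℝ S = k)
    (_ : (S : Set (Lp ℝ 2 (volume : Measure (Rd d)))) ⊆ H1V V),
    ⨆ (u : Lp ℝ 2 (volume : Measure (Rd d))) (_ : u ∈ S) (_ : u ≠ 0),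
      energy V u / ∫⁻ x, ‖u x‖ₑ ^ 2

/-- The class `𝒜_p`: Lebesgue measurable `V : ℝ^d → [0, ∞]` with `∫ V^(-p) ≤ 1`
(in `[0, ∞]`, `∞^(-p) = 0` and `0^(-p) = ∞`). -/
def admissible (d : ℕ) (p : ℝ) : Set (Rd d → ℝ≥0∞) :=
  {V | AEMeasurable V volume ∧ ∫⁻ x, V x ^ (-p) ≤ 1}

end Pool.Agent.P.MP_5ab436_an
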