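import Pool.Agent.P.MP_5ab436_an.Space

/-!
The analytic estimates: concentration inequality, Caccioppoli inequality, cut-off functions.
-/

set_option autoImplicit false

open MeasureTheory
open scoped ENNReal InnerProductSpace

namespace Pool.Agent.P.MP_5ab436_an

variable {d : ℕ} {V : Rd d → ℝ≥0∞}

/-- Volume of the unit ball. -/
noncomputable def ω (d : ℕ) : ℝ := (volume (Metric.ball (0 : Rd d) 1)).toReal

lemma ω_pos (d : ℕ) : 0 < ω d :=
  ENNReal.toReal_pos (Metric.measure_ball_pos _ _ one_pos).ne' measure_ball_lt_top.ne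

lemma volume_ball_eq {t : ℝ} (ht : 0 < t) :
    volume (Metric.ball (0 : Rd d) t) = ENNReal.ofReal (t ^ d * ω d) := by
  rw [Measure.addHaar_ball_of_pos _ _ ht, ENNReal.ofReal_mul (by positivity), ω,
    ENNReal.ofReal_toReal measure_ball_lt_top.ne]
  simp

lemma measure_sublevel_le (hV : Measurable V) {p : ℝ} (hp : 0 < p) {Z : Set (Rd d)}
    (hZ : MeasurableSet Z) {M : ℝ} (hM : 0 < M) :
    volume (Z ∩ {x | V x ≤ ENNReal.ofReal M}) ≤
      ENNReal.ofReal (M ^ p) * ∫⁻ x in Z, V x ^ (-p) := by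
  have hA : MeasurableSet (Z ∩ {x | V x ≤ ENNReal.ofReal M}) :=
    hZ.inter (measurableSet_le hV measurable_const)
  rw [← lintegral_const_mul' _ _ ENNReal.ofReal_ne_top]
  calc volume (Z ∩ {x | V x ≤ ENNReal.ofReal M})
      = ∫⁻ x in Z ∩ {x | V x ≤ ENNReal.ofReal M}, 1 := by simp
    _ ≤ ∫⁻ x in Z ∩ {x | V x ≤ ENNReal.ofReal M}, ENNReal.ofReal (M ^ p) * V x ^ (-p) := by
        refine setLIntegral_mono' hA fun x hx => ?_
        have h1 : V x ^ p ≤ ENNReal.ofReal (M ^ p) := by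
          rw [← ENNReal.ofReal_rpow_of_pos hM]
          exact ENNReal.rpow_le_rpow hx.2 hp.le
        rw [ENNReal.rpow_neg]
        calc (1 : ℝ≥0∞) = ENNReal.ofReal (M ^ p) * (ENNReal.ofReal (M ^ p))⁻¹ := by
              rw [ENNReal.mul_inv_cancel (by simpa using Real.rpow_pos_of_pos hM p)
                ENNReal.ofReal_ne_top]
          _ ≤ _ := by gcongr
    _ ≤ _ := lintegral_mono_set Set.inter_subset_left

/-- The concentration inequality. -/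
lemma concentration (hV : Measurable V) {p : ℝ} (hp : 0 < p) {Z : Set (Rd d)}
    (hZ : MeasurableSet Z) {m : ℝ} (hm0 : 0 ≤ m) (hm : ∫⁻ x in Z, V x ^ (-p) ≤ ENNReal.ofReal m)
    (u : dom hV) (hu : ∀ᵐ x ∂(volume : Measure (Rd d)), x ∉ Z → (u : LH d) x = 0)
    {M t : ℝ} (hM : 0 < M) (ht : 0 < t) :
    ‖u‖ ^ 2 ≤ ‖pot hV u‖ ^ 2 / M + 2 * t ^ 2 * ‖grad hV u‖ ^ 2 +
      2 * (M ^ p * m) / (t ^ d * ω d) * ‖u‖ ^ 2 := by
  set A := Z ∩ {x | V x ≤ ENNReal.ofReal M} with hAdef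
  have hA : MeasurableSet A := hZ.inter (measurableSet_le hV measurable_const)
  have hω := ω_pos d
  have hMp : 0 < M ^ p := Real.rpow_pos_of_pos hM p
  have hnu : ‖u‖ = ‖(u : LH d)‖ := rfl
  set a := ‖(ind A hA).op (u : LH d)‖ ^ 2 with ha
  set b := ‖(ind Aᶜ hA.compl).op (u : LH d)‖ ^ 2 with hb
  have h1 : ‖u‖ ^ 2 = a + b := by
    have := lintegral_add_compl (μ := volume) (fun x => ‖(u : LH d) x‖ₑ ^ 2) hA
    rw [← ofReal_norm_ind_sq A hA, ← ofReal_norm_ind_sq Aᶜ hA.compl, lintegral_enorm_sq,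
      ← ENNReal.ofReal_add (by positivity) (by positivity)] at this
    rw [hnu]
    exact ((ENNReal.ofReal_eq_ofReal_iff (by positivity) (by positivity)).mp this).symm
  have h2 : M * b ≤ ‖pot hV u‖ ^ 2 := by
    rw [← ENNReal.ofReal_le_ofReal_iff (by positivity), ← lintegral_pot,
      ENNReal.ofReal_mul hM.le, hb, ofReal_norm_ind_sq,
      ← lintegral_const_mul' _ _ ENNReal.ofReal_ne_top]
    refine le_trans (lintegral_mono_ae ?_) (setLIntegral_le_lintegral Aᶜ _)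
    rw [ae_restrict_iff' hA.compl]
    filter_upwards [hu] with x hx hxA
    by_cases hxZ : x ∈ Z
    · have : ENNReal.ofReal M ≤ V x := by
        by_contra hc
        exact hxA ⟨hxZ, (not_le.mp hc).le⟩
      gcongr
    · simp [hx hxZ]
  have h3 : (t ^ d * ω d) * a ≤ (t ^ d * ω d) * (2 * t ^ 2 * ‖grad hV u‖ ^ 2) +
      2 * (M ^ p * m) * ‖u‖ ^ 2 := by
    have h4 := setLIntegral_sq_le (u : LH d) (grad hV u) (isWeakGradient_grad hV u) A t
    have h5 : volume A ≤ ENNReal.ofReal (M ^ p * m) := by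
      rw [ENNReal.ofReal_mul hMp.le]
      exact (measure_sublevel_le hV hp hZ hM).trans (by gcongr)
    rw [volume_ball_eq ht, ← ofReal_norm_ind_sq A hA] at h4
    rw [← ENNReal.ofReal_le_ofReal_iff (by positivity),
      ENNReal.ofReal_add (by positivity) (by positivity),
      ENNReal.ofReal_mul (by positivity), ENNReal.ofReal_mul (p := t ^ d * ω d) (by positivity),
      ENNReal.ofReal_mul (p := 2 * (M ^ p * m)) (by positivity),
      ENNReal.ofReal_mul (p := 2) (q := M ^ p * m) (by positivity)]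
    refine h4.trans ?_
    rw [hnu]
    gcongr
    simp
  have h6 : b ≤ ‖pot hV u‖ ^ 2 / M := by rw [le_div_iff₀ hM]; linarith
  have h7 : a ≤ 2 * t ^ 2 * ‖grad hV u‖ ^ 2 + 2 * (M ^ p * m) / (t ^ d * ω d) * ‖u‖ ^ 2 := by
    have hβ : 0 < t ^ d * ω d := by positivity
    refine le_of_mul_le_mul_left ?_ hβ
    refine h3.trans (le_of_eq ?_)
    field_simp
  linarith

/-- Lower bound for the potential energy of functions with bounded kinetic energy. -/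
lemma exists_pot_lower (d : ℕ) {p : ℝ} (hp : 0 < p) {Γ : ℝ} (hΓ : 0 < Γ) :
    ∃ c₀ > 0, ∀ (V : Rd d → ℝ≥0∞) (hV : Measurable V), ∫⁻ x, V x ^ (-p) ≤ 1 →
      ∀ u : dom hV, ‖grad hV u‖ ^ 2 ≤ Γ * ‖u‖ ^ 2 → c₀ * ‖u‖ ^ 2 ≤ ‖pot hV u‖ ^ 2 := by
  have hω := ω_pos d
  set t : ℝ := √(1 / (8 * Γ)) with htdef
  have ht : 0 < t := by positivity
  have ht2 : t ^ 2 = 1 / (8 * Γ) := Real.sq_sqrt (by positivity)
  set M : ℝ := (t ^ d * ω d / 8) ^ (p⁻¹) with hMdef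
  have hM : 0 < M := by positivity
  have hMp : M ^ p = t ^ d * ω d / 8 := Real.rpow_inv_rpow (by positivity) hp.ne'
  refine ⟨M / 2, by positivity, fun V hV hm u hu => ?_⟩
  have h1 := concentration hV hp MeasurableSet.univ (m := 1) zero_le_one (by simpa using hm) u
    (by simp) hM ht
  rw [hMp, ht2] at h1
  have h2 : 2 * (t ^ d * ω d / 8 * 1) / (t ^ d * ω d) = 1 / 4 := by field_simp; norm_num
  have h3 : 2 * (1 / (8 * Γ)) * ‖grad hV u‖ ^ 2 ≤ 1 / 4 * ‖u‖ ^ 2 := by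
    calc 2 * (1 / (8 * Γ)) * ‖grad hV u‖ ^ 2 ≤ 2 * (1 / (8 * Γ)) * (Γ * ‖u‖ ^ 2) := by gcongr
      _ = _ := by field_simp; ring
  rw [h2] at h1
  have h4 : ‖u‖ ^ 2 / 2 ≤ ‖pot hV u‖ ^ 2 / M := by linarith
  rw [le_div_iff₀ hM] at h4
  linarith

section good

variable (hV : Measurable V) {k : ℕ} {Λ ε a : ℝ} {S : Submodule ℝ (dom hV)}
  {Z : Set (Rd d)} (hZ : MeasurableSet Z)

/-- The `L²` mass on `Z` of elements of `S` is at most `a`. -/
def Tail (S : Submodule ℝ (dom hV)) (a : ℝ) : Prop :=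
  ∀ z ∈ S, ‖(ind Z hZ).op (z : LH d)‖ ^ 2 ≤ a * ‖z‖ ^ 2

lemma Tail.norm_op_le (ha : 0 ≤ a) (hT : Tail hV hZ S a) (ρ : Mult d)
    (hρ : ∀ x, x ∉ Z → ρ.f x = 0) {z : dom hV} (hz : z ∈ S) :
    ‖ρ.op (z : LH d)‖ ≤ √a * ‖z‖ := by
  have h1 : ‖ρ.op (z : LH d)‖ ≤ ‖(ind Z hZ).op (z : LH d)‖ := by
    refine Mult.norm_op_mono _ _ (fun x => ?_) _
    by_cases hx : x ∈ Z
    · simpa [ind, hx] using ρ.le_one x
    · simp [ind, hx, hρ x hx]
  refine h1.trans (abs_le_of_sq_le_sq' ?_ (by positivity)).2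
  rw [mul_pow, Real.sq_sqrt ha]
  exact hT z hz

lemma Tail.inner_le (ha : 0 ≤ a) (hT : Tail hV hZ S a) (ρ : Mult d)
    (hρ : ∀ x, x ∉ Z → ρ.f x = 0) {w : dom hV} (hw : w ∈ S) (φ : dom hV)
    (hφ : (φ : LH d) = ρ.op (ρ.op (w : LH d))) :
    ∀ z ∈ S, |⟪z, φ⟫_ℝ| ≤ a * ‖w‖ * ‖z‖ := by
  intro z hz
  rw [Submodule.coe_inner, hφ, ← Mult.inner_op]
  calc |⟪ρ.op (z : LH d), ρ.op (w : LH d)⟫_ℝ| ≤ ‖ρ.op (z : LH d)‖ * ‖ρ.op (w : LH d)‖ :=
        abs_real_inner_le_norm _ _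
    _ ≤ (√a * ‖z‖) * (√a * ‖w‖) := by
        gcongr
        · exact hT.norm_op_le hV hZ ha ρ hρ hz
        · exact hT.norm_op_le hV hZ ha ρ hρ hw
    _ = (√a * √a) * ‖w‖ * ‖z‖ := by ring
    _ = _ := by rw [Real.mul_self_sqrt ha]

lemma Good.norm_TT_le (hΛ : 0 ≤ Λ) (hε1 : ε ≤ 1) (hS : Good (TT hV) k Λ ε S) {w : dom hV}
    (hw : w ∈ S) : ‖TT hV w‖ ≤ (Λ + 1) * ‖w‖ := by
  refine (abs_le_of_sq_le_sq' ?_ (by positivity)).2
  refine (hS.2.1 w hw).trans ?_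
  rw [mul_pow]
  gcongr
  nlinarith

/-- Caccioppoli inequality. -/
lemma caccioppoli (hk : 1 ≤ k) (hΛ : 0 ≤ Λ) (hε : 0 ≤ ε) (hε1 : ε ≤ 1) (hεa : ε ≤ a)
    (hS : Good (TT hV) k Λ ε S) (hT : Tail hV hZ S a) (ζ : Cut d)
    (hζ : ∀ x, x ∉ Z → ζ.f x = 0) (hζ' : ∀ x, x ∉ Z → ζ.ξ x = 0) {w : dom hV} (hw : w ∈ S) :
    ‖TT hV (ζ.act hV w)‖ ^ 2 ≤ a * (3 * Λ + 4 + 2 * ζ.K + ζ.K ^ 2) * ‖w‖ ^ 2 := by
  have ha : 0 ≤ a := hε.trans hεa
  have hK := ζ.K_nonneg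
  have h1 := hS.inner_le hk hΛ hε hε1 hw (ζ.act hV (ζ.act hV w)) (b := a * ‖w‖) (by positivity)
    (hT.inner_le hV hZ ha ζ.toMult hζ hw _ rfl)
  have h2 : ‖ζ.act hV (ζ.act hV w)‖ ≤ ‖w‖ := (ζ.norm_act_le hV _).trans (ζ.norm_act_le hV _)
  have h3 : ‖TT hV (ζ.act hV (ζ.act hV w))‖ ≤ (Λ + 1 + 2 * ζ.K) * ‖w‖ := by
    have a1 := ζ.norm_TT_act_le hV (ζ.act hV w)
    have a2 := ζ.norm_TT_act_le hV w
    have a3 := hS.norm_TT_le hV hΛ hε1 hw
    have a4 : ζ.K * ‖ζ.act hV w‖ ≤ ζ.K * ‖w‖ := by gcongr; exact ζ.norm_act_le hV _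
    linarith
  have h4 : ‖ζ.vec w‖ ^ 2 ≤ ζ.K ^ 2 * (a * ‖w‖ ^ 2) := by
    calc ‖ζ.vec w‖ ^ 2 ≤ (ζ.K * ‖(ind Z hZ).op (w : LH d)‖) ^ 2 := by
          gcongr; exact ζ.norm_vec_le Z hZ hζ' _
      _ ≤ _ := by rw [mul_pow]; gcongr; exact hT w hw
  have h5 : ε * ‖w‖ * (‖TT hV (ζ.act hV (ζ.act hV w))‖ + (Λ + 2) * ‖ζ.act hV (ζ.act hV w)‖) ≤
      a * ‖w‖ * ((Λ + 1 + 2 * ζ.K) * ‖w‖ + (Λ + 2) * ‖w‖) := by gcongr
  rw [ζ.ims hV w]
  have h6 := le_abs_self ⟪TT hV w, TT hV (ζ.act hV (ζ.act hV w))⟫_ℝ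
  nlinarith

/-- Energy of the truncated test functions. -/
lemma truncation (hk : 1 ≤ k) (hΛ : 0 ≤ Λ) (hε : 0 ≤ ε) (hε1 : ε ≤ 1) (hεa : ε ≤ a)
    (hS : Good (TT hV) k Λ ε S) (hT : Tail hV hZ S a) (η : Cut d)
    (hη : ∀ x, x ∉ Z → η.f x = 1) (hη' : ∀ x, x ∉ Z → η.ξ x = 0) {w : dom hV} (hw : w ∈ S) :
    ‖TT hV (η.act hV w)‖ ^ 2 ≤ (Λ + a * (4 * Λ + 6 + 2 * η.K + η.K ^ 2)) * ‖w‖ ^ 2 ∧
      (1 - a) * ‖w‖ ^ 2 ≤ ‖η.act hV w‖ ^ 2 := by
  have ha : 0 ≤ a := hε.trans hεa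
  have hK := η.K_nonneg
  have hsq : ∀ x, 0 ≤ 1 - η.f x ^ 2 := fun x => by nlinarith [η.nonneg x, η.le_one x]
  let ρ : Mult d :=
    { f := fun x => √(1 - η.f x ^ 2)
      meas := (measurable_const.sub (η.meas.pow_const 2)).sqrt
      nonneg := fun x => Real.sqrt_nonneg _
      le_one := fun x => Real.sqrt_le_one.mpr (by nlinarith [sq_nonneg (η.f x)]) }
  have hρ : ∀ x, x ∉ Z → ρ.f x = 0 := fun x hx => by simp [ρ, hη x hx]
  set φ : dom hV := w - η.act hV (η.act hV w) with hφdef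
  have hφ : (φ : LH d) = ρ.op (ρ.op (w : LH d)) := by
    refine Lp.ext ?_
    simp only [hφdef, Submodule.coe_sub, Cut.coe_act]
    filter_upwards [Lp.coeFn_sub (w : LH d) (η.toMult.op (η.toMult.op (w : LH d))),
      η.toMult.coeFn_op (η.toMult.op (w : LH d)), η.toMult.coeFn_op (w : LH d),
      ρ.coeFn_op (ρ.op (w : LH d)), ρ.coeFn_op (w : LH d)] with x h1 h2 h3 h4 h5
    rw [h1, Pi.sub_apply, h2, h3, h4, h5]
    simp only [smul_eq_mul, ρ]
    rw [← mul_assoc, ← mul_assoc, Real.mul_self_sqrt (hsq x)]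
    ring
  have h1 := hS.inner_le hk hΛ hε hε1 hw φ (b := a * ‖w‖) (by positivity)
    (hT.inner_le hV hZ ha ρ hρ hw _ hφ)
  have h2 : ‖φ‖ ≤ ‖w‖ := by
    change ‖(φ : LH d)‖ ≤ ‖(w : LH d)‖
    rw [hφ]
    exact (ρ.norm_op_le _).trans (ρ.norm_op_le _)
  have a3 := hS.norm_TT_le hV hΛ hε1 hw
  have h3 : ‖TT hV φ‖ ≤ (2 * Λ + 2 + 2 * η.K) * ‖w‖ := by
    have a1 := η.norm_TT_act_le hV (η.act hV w)
    have a2 := η.norm_TT_act_le hV w
    have a4 : η.K * ‖η.act hV w‖ ≤ η.K * ‖w‖ := by gcongr; exact η.norm_act_le hV _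
    have a5 : ‖TT hV φ‖ ≤ ‖TT hV w‖ + ‖TT hV (η.act hV (η.act hV w))‖ := by
      rw [hφdef, map_sub]; exact norm_sub_le _ _
    linarith
  have h4 : ‖η.vec w‖ ^ 2 ≤ η.K ^ 2 * (a * ‖w‖ ^ 2) := by
    calc ‖η.vec w‖ ^ 2 ≤ (η.K * ‖(ind Z hZ).op (w : LH d)‖) ^ 2 := by
          gcongr; exact η.norm_vec_le Z hZ hη' _
      _ ≤ _ := by rw [mul_pow]; gcongr; exact hT w hw
  have h5 : ε * ‖w‖ * (‖TT hV φ‖ + (Λ + 2) * ‖φ‖) ≤
      a * ‖w‖ * ((2 * Λ + 2 + 2 * η.K) * ‖w‖ + (Λ + 2) * ‖w‖) := by gcongr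
  constructor
  · rw [η.ims hV w]
    have h6 := neg_abs_le ⟪TT hV w, TT hV φ⟫_ℝ
    have h7 : ⟪TT hV w, TT hV φ⟫_ℝ =
        ‖TT hV w‖ ^ 2 - ⟪TT hV w, TT hV (η.act hV (η.act hV w))⟫_ℝ := by
      rw [hφdef, map_sub, inner_sub_right, real_inner_self_eq_norm_sq]
    have h8 := hS.2.1 w hw
    have h9 : ε * ‖w‖ ^ 2 ≤ a * ‖w‖ ^ 2 := by gcongr
    nlinarith
  · have h6 := (le_abs_self _).trans (hT.inner_le hV hZ ha ρ hρ hw _ hφ w hw)
    have h7 : ⟪w, φ⟫_ℝ = ‖w‖ ^ 2 - ‖η.act hV w‖ ^ 2 := by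
      rw [hφdef, inner_sub_right, real_inner_self_eq_norm_sq, Submodule.coe_inner, Cut.coe_act,
        ← Mult.inner_op, Cut.coe_act, real_inner_self_eq_norm_sq]
      rfl
    nlinarith

end good

/-! ### Explicit cut-off functions -/

lemma deriv_smoothTransition_of_neg {s : ℝ} (hs : s < 0) : deriv Real.smoothTransition s = 0 := by
  have : Real.smoothTransition =ᶠ[nhds s] fun _ => 0 := by
    filter_upwards [Iio_mem_nhds hs] with y hy
    exact Real.smoothTransition.zero_of_nonpos (le_of_lt hy)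
  rw [this.deriv_eq]; simp

lemma deriv_smoothTransition_of_one_lt {s : ℝ} (hs : 1 < s) :
    deriv Real.smoothTransition s = 0 := by
  have : Real.smoothTransition =ᶠ[nhds s] fun _ => 1 := by
    filter_upwards [Ioi_mem_nhds hs] with y hy
    exact Real.smoothTransition.one_of_one_le (le_of_lt hy)
  rw [this.deriv_eq]; simp

lemma continuous_deriv_smoothTransition : Continuous (deriv Real.smoothTransition) :=
  (Real.smoothTransition.contDiff (n := 1)).continuous_deriv le_rfl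

lemma exists_deriv_bound : ∃ L : ℝ, ∀ s, ‖deriv Real.smoothTransition s‖ ≤ L := by
  refine continuous_deriv_smoothTransition.bounded_above_of_compact_support ?_
  refine HasCompactSupport.intro (isCompact_Icc (a := (0 : ℝ)) (b := 1)) fun s hs => ?_
  rcases not_and_or.mp hs with h | h
  · exact deriv_smoothTransition_of_neg (not_le.mp h)
  · exact deriv_smoothTransition_of_one_lt (not_le.mp h)

/-- A bound for the derivative of the smooth transition function. -/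
noncomputable def Lχ : ℝ := exists_deriv_bound.choose

lemma norm_deriv_le (s : ℝ) : ‖deriv Real.smoothTransition s‖ ≤ Lχ :=
  exists_deriv_bound.choose_spec s

lemma Lχ_nonneg : 0 ≤ Lχ := (norm_nonneg _).trans (norm_deriv_le 0)

/-- The cut-off `x ↦ χ(α + ⟨b, x⟩)`. -/
noncomputable def cut (α : ℝ) (b : Rd d) : Cut d where
  f x := Real.smoothTransition (α + ⟪b, x⟫_ℝ)
  meas := (Real.smoothTransition.continuous.comp (by fun_prop)).measurable
  nonneg x := Real.smoothTransition.nonneg _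
  le_one x := Real.smoothTransition.le_one _
  ξ x := deriv Real.smoothTransition (α + ⟪b, x⟫_ℝ) • b
  K := Lχ * ‖b‖
  smooth := Real.smoothTransition.contDiff.comp
    (contDiff_const.add (contDiff_const.inner ℝ contDiff_id))
  fderiv_eq x e := by
    have h1 : HasFDerivAt (fun x : Rd d => α + ⟪b, x⟫_ℝ) (innerSL ℝ b) x :=
      (innerSL ℝ b).hasFDerivAt.const_add α
    have h2 : HasDerivAt Real.smoothTransition (deriv Real.smoothTransition (α + ⟪b, x⟫_ℝ))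
        (α + ⟪b, x⟫_ℝ) :=
      ((Real.smoothTransition.contDiff (n := 1)).differentiable (by simp) _).hasDerivAt
    have h3 := h2.comp_hasFDerivAt x h1
    have h4 : fderiv ℝ (fun x : Rd d => Real.smoothTransition (α + ⟪b, x⟫_ℝ)) x =
      deriv Real.smoothTransition (α + ⟪b, x⟫_ℝ) • innerSL ℝ b := h3.fderiv
    rw [h4]
    simp [real_inner_smul_left]
  ξmeas := ((continuous_deriv_smoothTransition.comp (by fun_prop)).smul
    continuous_const).measurable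
  ξbound x := by
    rw [norm_smul]
    exact mul_le_mul_of_nonneg_right (norm_deriv_le _) (norm_nonneg _)

/-- The closed half-space. -/
def half (e : Rd d) (r : ℝ) : Set (Rd d) := {x | r ≤ ⟪e, x⟫_ℝ}

lemma measurableSet_half (e : Rd d) (r : ℝ) : MeasurableSet (half e r) :=
  measurableSet_le measurable_const (by fun_prop)

lemma exists_cut_up (e : Rd d) (he : ‖e‖ = 1) (r : ℝ) {δ : ℝ} (hδ : 0 < δ) :
    ∃ ζ : Cut d, ζ.K = Lχ / δ ∧ (∀ x, x ∉ half e r → ζ.f x = 0) ∧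
      (∀ x, x ∉ half e r → ζ.ξ x = 0) ∧ ∀ x ∈ half e (r + δ), ζ.f x = 1 := by
  have harg : ∀ x, -r / δ + ⟪δ⁻¹ • e, x⟫_ℝ = (⟪e, x⟫_ℝ - r) / δ := by
    intro x; rw [real_inner_smul_left]; field_simp; ring
  refine ⟨cut (-r / δ) (δ⁻¹ • e), ?_, fun x hx => ?_, fun x hx => ?_, fun x hx => ?_⟩
  · simp [cut, norm_smul, he, abs_of_pos hδ, div_eq_mul_inv]
  · simp only [cut, harg]
    refine Real.smoothTransition.zero_of_nonpos (div_nonpos_of_nonpos_of_nonneg ?_ hδ.le)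
    simp only [half, Set.mem_ofPred_eq, not_le] at hx
    linarith
  · simp only [cut, harg]
    rw [deriv_smoothTransition_of_neg, zero_smul]
    simp only [half, Set.mem_ofPred_eq, not_le] at hx
    exact div_neg_of_neg_of_pos (by linarith) hδ
  · simp only [cut, harg]
    refine Real.smoothTransition.one_of_one_le ?_
    simp only [half, Set.mem_ofPred_eq] at hx
    rw [le_div_iff₀ hδ]; linarith

lemma exists_cut_down (e : Rd d) (he : ‖e‖ = 1) (r : ℝ) {δ : ℝ} (hδ : 0 < δ) :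
    ∃ η : Cut d, η.K = Lχ / δ ∧ (∀ x, x ∉ half e r → η.f x = 1) ∧
      (∀ x, x ∉ half e r → η.ξ x = 0) ∧ ∀ x ∈ half e (r + δ), η.f x = 0 := by
  have harg : ∀ x, (r + δ) / δ + ⟪(-δ⁻¹) • e, x⟫_ℝ = (r + δ - ⟪e, x⟫_ℝ) / δ := by
    intro x; rw [real_inner_smul_left]; field_simp; ring
  refine ⟨cut ((r + δ) / δ) ((-δ⁻¹) • e), ?_, fun x hx => ?_, fun x hx => ?_, fun x hx => ?_⟩
  · simp [cut, norm_smul, he, abs_of_pos hδ, div_eq_mul_inv]
  · simp only [cut, harg]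
    refine Real.smoothTransition.one_of_one_le ?_
    simp only [half, Set.mem_ofPred_eq, not_le] at hx
    rw [le_div_iff₀ hδ]; linarith
  · simp only [cut, harg]
    rw [deriv_smoothTransition_of_one_lt, zero_smul]
    simp only [half, Set.mem_ofPred_eq, not_le] at hx
    rw [lt_div_iff₀ hδ]; linarith
  · simp only [cut, harg]
    refine Real.smoothTransition.zero_of_nonpos (div_nonpos_of_nonpos_of_nonneg ?_ hδ.le)
    simp only [half, Set.mem_ofPred_eq] at hx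
    linarith

end Pool.Agent.P.MP_5ab436_an
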