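import Mathlib

/-!
Abstract part: approximate eigenspaces obtained from near-minimisers of the trace.
-/

set_option autoImplicit false

open Module
open scoped InnerProductSpace

namespace Pool.Agent.P.MP_5ab436_an

variable {X K : Type*} [NormedAddCommGroup X] [InnerProductSpace ℝ X]
  [NormedAddCommGroup K] [InnerProductSpace ℝ K]

lemma sum_norm_sq_orthonormalBasis {ι : Type*} [Fintype ι] [DecidableEq ι]
    (b b' : OrthonormalBasis ι ℝ X) (T : X →ₗ[ℝ] K) :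
    ∑ i, ‖T (b i)‖ ^ 2 = ∑ i, ‖T (b' i)‖ ^ 2 := by
  have h1 : ∀ i, T (b i) = ∑ j, ⟪b' j, b i⟫_ℝ • T (b' j) := by
    intro i
    conv_lhs => rw [← b'.sum_repr' (b i)]
    simp [map_sum, map_smul]
  have h2 : ∀ i, ‖T (b i)‖ ^ 2 =
      ∑ j, ∑ l, (⟪b' j, b i⟫_ℝ * ⟪b i, b' l⟫_ℝ) * ⟪T (b' j), T (b' l)⟫_ℝ := by
    intro i
    rw [← real_inner_self_eq_norm_sq]
    conv_lhs => rw [h1 i]
    rw [sum_inner]
    refine Finset.sum_congr rfl fun j _ => ?_
    rw [inner_sum]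
    refine Finset.sum_congr rfl fun l _ => ?_
    rw [real_inner_smul_left, real_inner_smul_right, real_inner_comm (b i) (b' l)]
    ring
  simp_rw [h2]
  rw [Finset.sum_comm]
  refine Finset.sum_congr rfl fun j _ => ?_
  rw [Finset.sum_comm]
  have h3 : ∀ l, ∑ i, (⟪b' j, b i⟫_ℝ * ⟪b i, b' l⟫_ℝ) * ⟪T (b' j), T (b' l)⟫_ℝ =
      ⟪b' j, b' l⟫_ℝ * ⟪T (b' j), T (b' l)⟫_ℝ := by
    intro l
    rw [← Finset.sum_mul, b.sum_inner_mul_inner]
  simp_rw [h3]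
  have h4 : ∀ l, ⟪b' j, b' l⟫_ℝ = if j = l then 1 else 0 := by
    intro l
    exact orthonormal_iff_ite.mp b'.orthonormal j l
  simp_rw [h4]
  simp

lemma orthonormal_update {ι : Type*} [DecidableEq ι] {u : ι → X} (hu : Orthonormal ℝ u)
    (i : ι) {y : X} (hy : ‖y‖ = 1) (hyu : ∀ j, j ≠ i → ⟪u j, y⟫_ℝ = 0) :
    Orthonormal ℝ (Function.update u i y) := by
  constructor
  · intro j
    by_cases h : j = i
    · subst h; simpa using hy
    · simp [Function.update_of_ne h, hu.1 j]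
  · intro j l hjl
    by_cases h : j = i
    · subst h
      have hl : l ≠ j := fun h => hjl h.symm
      simp only [Function.update_self, Function.update_of_ne hl]
      rw [real_inner_comm]
      exact hyu l hl
    · by_cases h' : l = i
      · subst h'
        simp only [Function.update_self, Function.update_of_ne h]
        exact hyu j h
      · simp only [Function.update_of_ne h, Function.update_of_ne h']
        exact hu.2 hjl

/-- An approximate spectral subspace. -/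
def Good (T : X →ₗ[ℝ] K) (k : ℕ) (Λ ε : ℝ) (S : Submodule ℝ X) : Prop :=
  finrank ℝ S = k ∧ (∀ w ∈ S, ‖T w‖ ^ 2 ≤ (Λ + ε) * ‖w‖ ^ 2) ∧
    ∀ w ∈ S, ∀ φ : X, (∀ z ∈ S, ⟪z, φ⟫_ℝ = 0) →
      |⟪T w, T φ⟫_ℝ| ≤ ε * ‖w‖ * (‖T φ‖ + ‖φ‖)

lemma exists_frame_of_finrank {k : ℕ} (S : Submodule ℝ X) (hS : finrank ℝ S = k) (hk : 1 ≤ k) :
    ∃ u : Fin k → X, Orthonormal ℝ u := by
  have : FiniteDimensional ℝ S := .of_finrank_pos (by omega)
  subst hS
  refine ⟨fun i => (stdOrthonormalBasis ℝ S i : X), ?_⟩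
  exact (stdOrthonormalBasis ℝ S).orthonormal.comp_linearIsometry S.subtypeₗᵢ

theorem exists_good (T : X →ₗ[ℝ] K) {k : ℕ} (hk : 1 ≤ k) (Λ : ℝ)
    (h : ∀ ε > 0, ∃ S : Submodule ℝ X, finrank ℝ S = k ∧
      ∀ w ∈ S, ‖T w‖ ^ 2 ≤ (Λ + ε) * ‖w‖ ^ 2)
    {ε : ℝ} (hε : 0 < ε) : ∃ S, Good T k Λ ε S := by
  classical
  set 𝒯 : Set ℝ := {t | ∃ u : Fin k → X, Orthonormal ℝ u ∧ t = ∑ i, ‖T (u i)‖ ^ 2} with h𝒯
  have hne : 𝒯.Nonempty := by
    obtain ⟨S, hS, -⟩ := h 1 one_pos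
    obtain ⟨u, hu⟩ := exists_frame_of_finrank S hS hk
    exact ⟨_, u, hu, rfl⟩
  have hbdd : BddBelow 𝒯 := by
    refine ⟨0, ?_⟩
    rintro t ⟨u, -, rfl⟩
    positivity
  set η : ℝ := min (min (ε ^ 2) (ε / 2)) 1 with hη
  have hηpos : 0 < η := by positivity
  have hη1 : η ≤ ε ^ 2 := (min_le_left _ _).trans (min_le_left _ _)
  have hη2 : η ≤ ε / 2 := (min_le_left _ _).trans (min_le_right _ _)
  have hη3 : η ≤ 1 := min_le_right _ _
  obtain ⟨t, ⟨u, hu, rfl⟩, ht⟩ := exists_lt_of_csInf_lt hne (lt_add_of_pos_right _ hηpos)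
  set S : Submodule ℝ X := Submodule.span ℝ (Set.range u) with hSdef
  have hSk : finrank ℝ S = k := by
    rw [hSdef, finrank_span_eq_card hu.linearIndependent]; simp
  have : FiniteDimensional ℝ S := .of_finrank_pos (by omega)
  have hcard : finrank ℝ S = Fintype.card (Fin k) := by simp [hSk]
  let i0 : Fin k := ⟨0, hk⟩
  -- the frame as an orthonormal basis of `S`
  obtain ⟨b0, hb0⟩ : ∃ b0 : OrthonormalBasis (Fin k) ℝ S, ∀ i, (b0 i : X) = u i := by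
    let v : Fin k → S := fun i => ⟨u i, Submodule.subset_span ⟨i, rfl⟩⟩
    have hv : Orthonormal ℝ v := hu.codRestrict S _
    have hv' : Orthonormal ℝ ((Set.univ : Set (Fin k)).domRestrict v) :=
      hv.comp _ Subtype.val_injective
    obtain ⟨b, hb⟩ := hv'.exists_orthonormalBasis_extension_of_card_eq hcard
    exact ⟨b, fun i => by rw [hb i (Set.mem_univ i)]⟩
  -- swapping lemma
  have key : ∀ w ∈ S, ‖w‖ = 1 → ∃ u' : Fin k → X, (∀ j, u' j ∈ S) ∧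
      (∀ j, j ≠ i0 → ⟪u' j, w⟫_ℝ = 0) ∧
      ∀ y : X, ‖y‖ = 1 → (∀ j, j ≠ i0 → ⟪u' j, y⟫_ℝ = 0) → ‖T w‖ ^ 2 - η ≤ ‖T y‖ ^ 2 := by
    intro w hw hw1
    let v : Fin k → S := fun _ => ⟨w, hw⟩
    have hv' : Orthonormal ℝ (({i0} : Set (Fin k)).domRestrict v) := by
      constructor
      · intro i; simpa [v] using hw1
      · intro i j hij
        exact absurd (Subsingleton.elim i j) hij
    obtain ⟨b, hb⟩ := hv'.exists_orthonormalBasis_extension_of_card_eq hcard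
    have hbw : (b i0 : X) = w := by rw [hb i0 rfl]
    have hbo : Orthonormal ℝ (fun j => (b j : X)) :=
      b.orthonormal.comp_linearIsometry S.subtypeₗᵢ
    refine ⟨fun j => (b j : X), fun j => (b j).2, fun j hj => ?_, fun y hy hyu => ?_⟩
    · rw [← hbw]
      exact hbo.2 hj
    have htr : ∑ i, ‖T (b i : X)‖ ^ 2 = ∑ i, ‖T (u i)‖ ^ 2 := by
      have := sum_norm_sq_orthonormalBasis b b0 (T.comp S.subtype)
      simpa [hb0] using this
    have hup := orthonormal_update hbo i0 hy hyu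
    have hle : sInf 𝒯 ≤ ∑ i, ‖T (Function.update (fun j => (b j : X)) i0 y i)‖ ^ 2 :=
      csInf_le hbdd ⟨_, hup, rfl⟩
    have hsum : ∑ i, ‖T (Function.update (fun j => (b j : X)) i0 y i)‖ ^ 2 =
        ∑ i, ‖T (b i : X)‖ ^ 2 - ‖T w‖ ^ 2 + ‖T y‖ ^ 2 := by
      rw [← Finset.add_sum_erase _ _ (Finset.mem_univ i0),
        ← Finset.add_sum_erase _ (fun i => ‖T (b i : X)‖ ^ 2) (Finset.mem_univ i0)]
      have : ∑ i ∈ Finset.univ.erase i0, ‖T (Function.update (fun j => (b j : X)) i0 y i)‖ ^ 2 =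
          ∑ i ∈ Finset.univ.erase i0, ‖T (b i : X)‖ ^ 2 := by
        refine Finset.sum_congr rfl fun i hi => ?_
        rw [Function.update_of_ne (Finset.ne_of_mem_erase hi)]
      rw [this, Function.update_self, hbw]
      ring
    linarith
  refine ⟨S, hSk, ?_, ?_⟩
  · -- upper bound on `S`
    have unit : ∀ w ∈ S, ‖w‖ = 1 → ‖T w‖ ^ 2 ≤ Λ + ε := by
      intro w hw hw1
      obtain ⟨u', hu'S, -, hu'⟩ := key w hw hw1
      obtain ⟨S', hS', hS'b⟩ := h (ε / 2) (by positivity)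
      have : FiniteDimensional ℝ S' := .of_finrank_pos (by omega)
      let L : S' →ₗ[ℝ] ({j : Fin k // j ≠ i0} → ℝ) :=
        LinearMap.pi fun j => (innerₗ X (u' j)).comp S'.subtype
      have hlt : finrank ℝ ({j : Fin k // j ≠ i0} → ℝ) < finrank ℝ S' := by
        rw [hS', Module.finrank_fintype_fun_eq_card]
        simp only [ne_eq, Fintype.card_subtype_compl, Fintype.card_fin, Fintype.card_unique]
        omega
      obtain ⟨z, hz, hz0⟩ := (Submodule.ne_bot_iff _).mp (LinearMap.ker_ne_bot_of_finrank_lt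
        (f := L) hlt)
      have hzn : ‖(z : X)‖ ≠ 0 := by
        simpa using hz0
      let y : X := ‖(z : X)‖⁻¹ • (z : X)
      have hy1 : ‖y‖ = 1 := by
        simp only [y, norm_smul, norm_inv, norm_norm]
        exact inv_mul_cancel₀ hzn
      have hyS : y ∈ S' := S'.smul_mem _ z.2
      have hyu : ∀ j, j ≠ i0 → ⟪u' j, y⟫_ℝ = 0 := by
        intro j hj
        have := congrFun (LinearMap.mem_ker.mp hz) ⟨j, hj⟩
        simp only [L, LinearMap.pi_apply, LinearMap.comp_apply, Submodule.subtype_apply,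
          innerₗ_apply_apply, Pi.zero_apply] at this
        simp only [y, real_inner_smul_right, this, mul_zero]
      have h1 := hu' y hy1 hyu
      have h2 := hS'b y hyS
      rw [hy1] at h2
      linarith
    intro w hw
    by_cases hw0 : w = 0
    · subst hw0; simp
    have hwn : ‖w‖ ≠ 0 := norm_ne_zero_iff.mpr hw0
    have h1 := unit (‖w‖⁻¹ • w) (S.smul_mem _ hw) (by
      simp only [norm_smul, norm_inv, norm_norm]; exact inv_mul_cancel₀ hwn)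
    rw [map_smul, norm_smul, norm_inv, norm_norm, mul_pow] at h1
    have h2 : ‖T w‖ ^ 2 = (‖w‖⁻¹ ^ 2 * ‖T w‖ ^ 2) * ‖w‖ ^ 2 := by field_simp
    rw [h2]
    gcongr
  · -- approximate invariance
    have unit : ∀ w ∈ S, ‖w‖ = 1 → ∀ φ : X, (∀ z ∈ S, ⟪z, φ⟫_ℝ = 0) →
        |⟪T w, T φ⟫_ℝ| ≤ ε * (‖T φ‖ + ‖φ‖) := by
      intro w hw hw1 φ hφ
      obtain ⟨u', hu'S, hu'w, hu'⟩ := key w hw hw1
      have hq : ∀ s : ℝ, 0 ≤ (‖T φ‖ ^ 2 + η * ‖φ‖ ^ 2) * (s * s) + 2 * ⟪T w, T φ⟫_ℝ * s + η := by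
        intro s
        have hn : ‖w + s • φ‖ ^ 2 = 1 + s ^ 2 * ‖φ‖ ^ 2 := by
          rw [norm_add_sq_real, real_inner_smul_right, hφ w hw, norm_smul, hw1, mul_pow]
          simp
        have hnpos : 0 < ‖w + s • φ‖ := by
          have : 0 < ‖w + s • φ‖ ^ 2 := by rw [hn]; positivity
          exact lt_of_le_of_ne (norm_nonneg _) (fun h0 => by rw [← h0] at this; simp at this)
        let y : X := ‖w + s • φ‖⁻¹ • (w + s • φ)
        have hy1 : ‖y‖ = 1 := by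
          simp only [y, norm_smul, norm_inv, norm_norm]
          exact inv_mul_cancel₀ hnpos.ne'
        have hyu : ∀ j, j ≠ i0 → ⟪u' j, y⟫_ℝ = 0 := by
          intro j hj
          simp only [y, real_inner_smul_right, inner_add_right, hu'w j hj, hφ _ (hu'S j)]
          simp
        have h1 := hu' y hy1 hyu
        have h2 : ‖T y‖ ^ 2 * ‖w + s • φ‖ ^ 2 = ‖T w + s • T φ‖ ^ 2 := by
          simp only [y, map_smul, map_add, norm_smul, norm_inv, norm_norm, mul_pow]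
          field_simp
        have h3 : ‖T w + s • T φ‖ ^ 2 =
            ‖T w‖ ^ 2 + 2 * (s * ⟪T w, T φ⟫_ℝ) + s ^ 2 * ‖T φ‖ ^ 2 := by
          rw [norm_add_sq_real, real_inner_smul_right, norm_smul, mul_pow]
          simp
        have h4 : (‖T w‖ ^ 2 - η) * ‖w + s • φ‖ ^ 2 ≤ ‖T y‖ ^ 2 * ‖w + s • φ‖ ^ 2 := by
          gcongr
        rw [h2, h3, hn] at h4
        have h5 : 0 ≤ ‖T w‖ ^ 2 * (s ^ 2 * ‖φ‖ ^ 2) := by positivity
        nlinarith
      have hd := discrim_le_zero hq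
      rw [discrim] at hd
      have h1 : ⟪T w, T φ⟫_ℝ ^ 2 ≤ (ε * (‖T φ‖ + ‖φ‖)) ^ 2 := by
        have h2 : ‖T φ‖ ^ 2 + η * ‖φ‖ ^ 2 ≤ (‖T φ‖ + ‖φ‖) ^ 2 := by
          have : η * ‖φ‖ ^ 2 ≤ 1 * ‖φ‖ ^ 2 := by gcongr
          have : 0 ≤ ‖T φ‖ * ‖φ‖ := by positivity
          nlinarith
        have h3 : (‖T φ‖ ^ 2 + η * ‖φ‖ ^ 2) * η ≤ (‖T φ‖ + ‖φ‖) ^ 2 * ε ^ 2 := by
          gcongr
        nlinarith
      exact abs_le_of_sq_le_sq h1 (by positivity)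
    intro w hw φ hφ
    by_cases hw0 : w = 0
    · subst hw0; simp
    have hwn : ‖w‖ ≠ 0 := norm_ne_zero_iff.mpr hw0
    have h1 := unit (‖w‖⁻¹ • w) (S.smul_mem _ hw) (by
      simp only [norm_smul, norm_inv, norm_norm]; exact inv_mul_cancel₀ hwn) φ hφ
    rw [map_smul, real_inner_smul_left, abs_mul, abs_inv, abs_norm] at h1
    have h2 : |⟪T w, T φ⟫_ℝ| = ‖w‖ * (‖w‖⁻¹ * |⟪T w, T φ⟫_ℝ|) := by field_simp
    rw [h2, mul_comm ε, mul_assoc]
    gcongr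

/-- The form of approximate invariance used below. -/
lemma Good.inner_le {T : X →ₗ[ℝ] K} {k : ℕ} (hk : 1 ≤ k) {Λ ε : ℝ} (hΛ : 0 ≤ Λ) (hε : 0 ≤ ε)
    (hε1 : ε ≤ 1) {S : Submodule ℝ X} (hS : Good T k Λ ε S) {w : X} (hw : w ∈ S) (φ : X) {b : ℝ}
    (hb : 0 ≤ b) (hφ : ∀ z ∈ S, |⟪z, φ⟫_ℝ| ≤ b * ‖z‖) :
    |⟪T w, T φ⟫_ℝ| ≤ (Λ + 1) * b * ‖w‖ + ε * ‖w‖ * (‖T φ‖ + (Λ + 2) * ‖φ‖) := by
  obtain ⟨hk', h1, h2⟩ := hS
  have : FiniteDimensional ℝ S := .of_finrank_pos (by omega)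
  set z : X := S.starProjection φ with hz
  have hzS : z ∈ S := S.starProjection_apply_mem φ
  have hperp : ∀ y ∈ S, ⟪y, φ - z⟫_ℝ = 0 := by
    intro y hy
    have := S.sub_starProjection_mem_orthogonal φ
    exact (S.mem_orthogonal _).mp this y hy
  have hzb : ‖z‖ ≤ b := by
    have h3 : ‖z‖ ^ 2 = ⟪z, φ⟫_ℝ := by
      have := hperp z hzS
      rw [inner_sub_right, real_inner_self_eq_norm_sq] at this
      linarith
    have h4 := (le_abs_self _).trans (hφ z hzS)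
    by_cases h0 : ‖z‖ = 0
    · rw [h0]; exact hb
    · have hpos : 0 < ‖z‖ := lt_of_le_of_ne (norm_nonneg _) (Ne.symm h0)
      nlinarith
  have hzφ : ‖z‖ ≤ ‖φ‖ := S.norm_starProjection_apply_le φ
  have hφz : ‖φ - z‖ ≤ ‖φ‖ := by
    have h3 : ‖φ‖ ^ 2 = ‖φ - z‖ ^ 2 + ‖z‖ ^ 2 := by
      have h4 := norm_add_sq_real z (φ - z)
      rw [hperp z hzS] at h4
      simp only [add_sub_cancel] at h4
      linarith
    exact abs_le_of_sq_le_sq' (by nlinarith [sq_nonneg ‖z‖]) (norm_nonneg _) |>.2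
  have hT : ∀ y ∈ S, ‖T y‖ ≤ √(Λ + 1) * ‖y‖ := by
    intro y hy
    have h3 : ‖T y‖ ^ 2 ≤ (√(Λ + 1) * ‖y‖) ^ 2 := by
      rw [mul_pow, Real.sq_sqrt (by positivity)]
      exact (h1 y hy).trans (by gcongr)
    exact abs_le_of_sq_le_sq' h3 (by positivity) |>.2
  have hs : √(Λ + 1) * √(Λ + 1) = Λ + 1 := Real.mul_self_sqrt (by positivity)
  have hs' : √(Λ + 1) ≤ Λ + 1 := by
    have : 1 ≤ √(Λ + 1) := Real.one_le_sqrt.mpr (by linarith)
    nlinarith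
  have hsplit : ⟪T w, T φ⟫_ℝ = ⟪T w, T z⟫_ℝ + ⟪T w, T (φ - z)⟫_ℝ := by
    rw [map_sub, inner_sub_right]; ring
  have e1 : |⟪T w, T z⟫_ℝ| ≤ (Λ + 1) * b * ‖w‖ := by
    calc |⟪T w, T z⟫_ℝ| ≤ ‖T w‖ * ‖T z‖ := abs_real_inner_le_norm _ _
      _ ≤ (√(Λ + 1) * ‖w‖) * (√(Λ + 1) * b) := by
        gcongr
        · exact hT w hw
        · exact (hT z hzS).trans (by gcongr)
      _ = (Λ + 1) * b * ‖w‖ := by
        rw [show (√(Λ + 1) * ‖w‖) * (√(Λ + 1) * b) = (√(Λ + 1) * √(Λ + 1)) * b * ‖w‖ by ring, hs]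
  have e2 : |⟪T w, T (φ - z)⟫_ℝ| ≤ ε * ‖w‖ * (‖T φ‖ + (Λ + 2) * ‖φ‖) := by
    refine (h2 w hw _ hperp).trans (mul_le_mul_of_nonneg_left ?_ (by positivity))
    have h3 : ‖T (φ - z)‖ ≤ ‖T φ‖ + (Λ + 1) * ‖φ‖ := by
      rw [map_sub]
      refine (norm_sub_le _ _).trans ?_
      gcongr
      exact (hT z hzS).trans (by gcongr)
    linarith
  rw [hsplit]
  exact (abs_add_le _ _).trans (add_le_add e1 e2)

end Pool.Agent.P.MP_5ab436_an
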