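import Pool.Agent.P.MP_5ab436_an.Steps

/-!
The De Giorgi type iteration and the boundedness theorem.
-/

set_option autoImplicit false

open MeasureTheory Module Filter Topology
open scoped ENNReal InnerProductSpace

namespace Pool.Agent.P.MP_5ab436_an

variable {d : ℕ}

lemma half_anti (e : Rd d) {r r' : ℝ} (h : r ≤ r') : half e r' ⊆ half e r :=
  fun _ hx => h.trans hx

lemma Tail.mono {V : Rd d → ℝ≥0∞} (hV : Measurable V) {S : Submodule ℝ (dom hV)} {e : Rd d}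
    {r r' a a' : ℝ} (hr : r ≤ r') (ha : a ≤ a') (hT : Tail hV (measurableSet_half e r) S a) :
    Tail hV (measurableSet_half e r') S a' := by
  intro z hz
  have h1 : ‖(ind _ (measurableSet_half e r')).op (z : LH d)‖ ≤
      ‖(ind _ (measurableSet_half e r)).op (z : LH d)‖ := by
    refine Mult.norm_op_mono _ _ (fun x => ?_) _
    exact Set.indicator_le_indicator_of_subset (half_anti e hr) (fun _ => zero_le_one) x
  calc _ ≤ ‖(ind _ (measurableSet_half e r)).op (z : LH d)‖ ^ 2 := by gcongr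
    _ ≤ a * ‖z‖ ^ 2 := hT z hz
    _ ≤ _ := by gcongr

lemma tail_one {V : Rd d → ℝ≥0∞} (hV : Measurable V) (S : Submodule ℝ (dom hV)) (e : Rd d)
    (r : ℝ) : Tail hV (measurableSet_half e r) S 1 := by
  intro z _
  rw [one_mul]
  have : ‖(ind _ (measurableSet_half e r)).op (z : LH d)‖ ≤ ‖z‖ := Mult.norm_op_le _ _
  gcongr

lemma exists_half_small {f : Rd d → ℝ≥0∞} (hf : ∫⁻ x, f x ≠ ⊤) (e : Rd d) {τ : ℝ} (hτ : 0 < τ) :
    ∃ r, ∫⁻ x in half e r, f x ≤ ENNReal.ofReal τ := by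
  let ν : Measure (Rd d) := volume.withDensity f
  have hν : ∀ r, ν (half e r) = ∫⁻ x in half e r, f x :=
    fun r => withDensity_apply f (measurableSet_half e r)
  have h1 : Tendsto (fun n : ℕ => ν (half e n)) atTop (𝓝 (ν (⋂ n : ℕ, half e n))) := by
    refine tendsto_measure_iInter_atTop (fun n => (measurableSet_half e n).nullMeasurableSet)
      (fun n m h => half_anti e (by exact_mod_cast h)) ⟨0, ?_⟩
    rw [hν]
    exact ne_top_of_le_ne_top hf (setLIntegral_le_lintegral _ _)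
  have h2 : (⋂ n : ℕ, half e n) = ∅ := by
    refine Set.eq_empty_of_forall_notMem fun x hx => ?_
    obtain ⟨n, hn⟩ := exists_nat_gt ⟪e, x⟫_ℝ
    exact absurd (Set.mem_iInter.mp hx n) (not_le.mpr hn)
  rw [h2, measure_empty] at h1
  obtain ⟨n, hn⟩ := (h1.eventually (ge_mem_nhds (ENNReal.ofReal_pos.mpr hτ))).exists
  exact ⟨n, by rw [← hν]; exact hn⟩

theorem exists_half_null {p : ℝ} (hp : 0 < p) {k : ℕ} (hk : 1 ≤ k) {V : Rd d → ℝ≥0∞}
    (hV : Measurable V) (hm : ∫⁻ x, V x ^ (-p) ≤ 1) {Λ : ℝ} (hΛ : 0 ≤ Λ)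
    (hVΛ : eigenvalue V k ≤ ENNReal.ofReal Λ)
    (hopt : ∀ W ∈ admissible d p, ENNReal.ofReal Λ ≤ eigenvalue W k)
    (e : Rd d) (he : ‖e‖ = 1) : ∃ R, ∫⁻ x in half e R, V x ^ (-p) = 0 := by
  obtain ⟨P, hP⟩ := exists_nat_ge p
  obtain ⟨C₁, hC₁, hmass⟩ := mass_step d hp hk hΛ
  obtain ⟨C₂, hC₂, htail⟩ := tail_step d hp hP hk hΛ
  set N : ℕ := 2 * P + d + 2 with hN
  set B : ℝ := 2 ^ (N + 2) with hB
  have hB1 : 1 ≤ B := one_le_pow₀ (by norm_num)
  set x₀ : ℝ := 1 / (C₂ * B) with hx₀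
  have hCB : 1 ≤ C₂ * B := by nlinarith
  have hx₀0 : 0 < x₀ := by positivity
  have hx₀1 : x₀ ≤ 1 := by rw [hx₀, div_le_one (by positivity)]; exact hCB
  have hx₀2 : C₂ * x₀ ^ 2 ≤ 1 / B := by
    have h1 : x₀ ^ 2 ≤ x₀ := by nlinarith
    calc C₂ * x₀ ^ 2 ≤ C₂ * x₀ := by gcongr
      _ = 1 / B := by rw [hx₀]; field_simp
  set A : ℝ := x₀ ^ N / C₁ with hA
  have hA0 : 0 < A := by positivity
  have hA1 : A ≤ 1 := by
    rw [hA, div_le_one (by positivity)]
    exact (pow_le_one₀ hx₀0.le hx₀1).trans hC₁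
  set y : ℝ := A / C₂ with hy
  have hy0 : 0 < y := by positivity
  have hy1 : y ≤ 1 := by rw [hy, div_le_one (by positivity)]; linarith
  have hy2 : C₂ * y ^ 2 * 1 / 1 ^ 2 ≤ A := by
    have h1 : y ^ 2 ≤ y := by nlinarith
    calc C₂ * y ^ 2 * 1 / 1 ^ 2 = C₂ * y ^ 2 := by ring
      _ ≤ C₂ * y := by gcongr
      _ = A := by rw [hy]; field_simp
  obtain ⟨R, hR⟩ := exists_half_small (ne_top_of_le_ne_top ENNReal.one_ne_top hm) e
    (τ := y ^ N) (by positivity)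
  let a : ℕ → ℝ := fun n => A / B ^ n
  let r : ℕ → ℝ := fun n => R + 1 + 4 - 4 / 2 ^ n
  have ha0 : ∀ n, 0 < a n := fun n => by positivity
  have haanti : ∀ j n, j ≤ n → a n ≤ a j := fun j n h => by
    simp only [a]; gcongr
  have ha1 : ∀ n, a n ≤ 1 := fun n => (haanti 0 n (Nat.zero_le n)).trans (by simpa [a] using hA1)
  have hδ0 : ∀ n : ℕ, (0 : ℝ) < 1 / 2 ^ n := fun n => by positivity
  have hδ1 : ∀ n : ℕ, (1 : ℝ) / 2 ^ n ≤ 1 := fun n => by
    rw [div_le_one (by positivity)]; exact one_le_pow₀ (by norm_num)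
  have hid : ∀ n : ℕ, C₁ * a n / (1 / 2 ^ n) ^ 2 = (x₀ / 2 ^ n) ^ N := by
    intro n
    simp only [a, hA, hB]
    have h1 : ((2 : ℝ) ^ (N + 2)) ^ n = (2 ^ n) ^ N * (2 ^ n) ^ 2 := by
      rw [← pow_mul, ← pow_add, ← pow_mul, mul_comm]
    rw [div_pow x₀, h1]
    field_simp
  have hxn0 : ∀ n : ℕ, 0 < x₀ / 2 ^ n := fun n => by positivity
  have hxn1 : ∀ n : ℕ, x₀ / 2 ^ n ≤ 1 / 2 ^ n := fun n => by gcongr
  have key : ∀ n : ℕ, ∫⁻ x in half e (r n + 1 / 2 ^ n), V x ^ (-p) ≤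
      ENNReal.ofReal ((x₀ / 2 ^ n) ^ N) := by
    intro n
    obtain ⟨S, hS⟩ := exists_good_of_eigenvalue hV hk hΛ hVΛ (ha0 n)
    have hM : ∀ j, j ≤ n → Tail hV (measurableSet_half e (r j)) S (a j) →
        ∫⁻ x in half e (r j + 1 / 2 ^ j), V x ^ (-p) ≤ ENNReal.ofReal ((x₀ / 2 ^ j) ^ N) := by
      intro j hj hT
      rw [← hid]
      exact hmass V hV hm hopt (a n) (a j) S e (r j) _ he (ha0 n).le (ha1 n) (haanti j n hj)
        (hδ0 j) (hδ1 j) hS hT
    have hT : ∀ j, j ≤ n → Tail hV (measurableSet_half e (r j)) S (a j) := by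
      intro j
      induction j with
      | zero =>
        intro _
        have h1 := htail V hV (a n) 1 S e R 1 y he (ha0 n).le (ha1 n) (ha1 n) one_pos le_rfl hy0
          hy1 hS (tail_one hV S e R) hR
        exact h1.mono hV (by simp [r]) (by simpa [a] using hy2)
      | succ j ih =>
        intro hj
        have h1 := ih (by omega)
        have h2 := hM j (by omega) h1
        have h3 := htail V hV (a n) (a j) S e (r j + 1 / 2 ^ j) (1 / 2 ^ j) (x₀ / 2 ^ j) he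
          (ha0 n).le (ha1 n) (haanti j n (by omega)) (hδ0 j) (hδ1 j) (hxn0 j)
          ((hxn1 j).trans (hδ1 j)) hS (h1.mono hV (by linarith [hδ0 j]) le_rfl) h2
        refine h3.mono hV (le_of_eq ?_) ?_
        · simp only [r]; rw [pow_succ]; field_simp; ring
        · calc C₂ * (x₀ / 2 ^ j) ^ 2 * a j / (1 / 2 ^ j) ^ 2 = (C₂ * x₀ ^ 2) * a j := by
                field_simp
            _ ≤ (1 / B) * a j := by have := (ha0 j).le; gcongr
            _ = a (j + 1) := by simp only [a]; rw [pow_succ]; field_simp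
    exact hM n le_rfl (hT n le_rfl)
  refine ⟨R + 5, le_antisymm ?_ zero_le⟩
  have hlim : Tendsto (fun n : ℕ => ENNReal.ofReal ((1 / 2 : ℝ) ^ n)) atTop (𝓝 0) := by
    rw [← ENNReal.ofReal_zero]
    exact ENNReal.tendsto_ofReal
      (tendsto_pow_atTop_nhds_zero_of_lt_one (by norm_num) (by norm_num))
  refine ge_of_tendsto' hlim fun n => ?_
  refine (lintegral_mono_set (half_anti e ?_)).trans ((key n).trans ?_)
  · simp only [r]
    have := hδ0 n
    have h4 : (4 : ℝ) / 2 ^ n = 4 * (1 / 2 ^ n) := by ring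
    linarith
  · refine ENNReal.ofReal_le_ofReal ?_
    calc (x₀ / 2 ^ n) ^ N ≤ (x₀ / 2 ^ n) ^ 1 :=
          pow_le_pow_of_le_one (hxn0 n).le ((hxn1 n).trans (hδ1 n)) (by omega)
      _ ≤ (1 / 2) ^ n := by rw [pow_one, one_div_pow]; exact hxn1 n

lemma eigenvalue_congr {V W : Rd d → ℝ≥0∞} (h : V =ᵐ[volume] W) (k : ℕ) :
    eigenvalue V k = eigenvalue W k := by
  have h1 : ∀ u : LH d, ∫⁻ x, V x * ‖u x‖ₑ ^ 2 = ∫⁻ x, W x * ‖u x‖ₑ ^ 2 := fun u =>
    lintegral_congr_ae (by filter_upwards [h] with x hx; rw [hx])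
  have h2 : H1V V = H1V W := by
    ext u; simp only [H1V, Set.mem_ofPred_eq, h1]
  have h3 : energy V = energy W := by
    funext u; simp only [energy, h1]
  simp only [eigenvalue, h2, h3]

theorem bounded_finiteness_set (hd : 1 ≤ d) {p : ℝ} (hp : 0 < p) {k : ℕ} (hk : 1 ≤ k)
    {V : Rd d → ℝ≥0∞} (hV : V ∈ admissible d p)
    (hopt : ∀ W ∈ admissible d p, eigenvalue V k ≤ eigenvalue W k) :
    ∃ R : ℝ, ∀ᵐ x ∂(volume : Measure (Rd d)), V x < ⊤ → ‖x‖ ≤ R := by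
  set U := hV.1.mk V with hU
  have hUm : Measurable U := hV.1.measurable_mk
  have hVU : V =ᵐ[volume] U := hV.1.ae_eq_mk
  have hm : ∫⁻ x, U x ^ (-p) ≤ 1 := by
    refine le_trans (le_of_eq (lintegral_congr_ae ?_)) hV.2
    filter_upwards [hVU] with x hx
    rw [hx]
  obtain ⟨W₀, hW₀, hfin⟩ := exists_finite_competitor hd hp k
  have hfin' : eigenvalue V k ≠ ⊤ := ((hopt W₀ hW₀).trans_lt hfin).ne
  set Λ := (eigenvalue V k).toReal with hΛ
  have hΛeq : ENNReal.ofReal Λ = eigenvalue V k := ENNReal.ofReal_toReal hfin'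
  have key : ∀ e : Rd d, ‖e‖ = 1 →
      ∃ R, ∀ᵐ x ∂(volume : Measure (Rd d)), V x < ⊤ → ⟪e, x⟫_ℝ < R := by
    intro e he
    obtain ⟨R, hR⟩ := exists_half_null hp hk hUm hm (Λ := Λ) ENNReal.toReal_nonneg
      (by rw [hΛeq, eigenvalue_congr hVU]) (by rw [hΛeq]; exact hopt) e he
    refine ⟨R, ?_⟩
    rw [lintegral_eq_zero_iff (hUm.pow_const _), Filter.EventuallyEq,
      ae_restrict_iff' (measurableSet_half e R)] at hR
    filter_upwards [hR, hVU] with x h1 h2 h3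
    by_contra h4
    have h5 := h1 (not_lt.mp h4)
    rw [Pi.zero_apply, ENNReal.rpow_eq_zero_iff] at h5
    rcases h5 with h5 | h5
    · linarith [h5.2]
    · rw [h2, h5.1] at h3
      exact lt_irrefl _ h3
  choose R₁ hR₁ using fun i : Fin d => key (EuclideanSpace.single i 1) (by simp)
  choose R₂ hR₂ using fun i : Fin d => key (-EuclideanSpace.single i 1) (by simp)
  refine ⟨∑ i, max (R₁ i) (R₂ i), ?_⟩
  filter_upwards [ae_all_iff.mpr hR₁, ae_all_iff.mpr hR₂] with x h1 h2 hx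
  have h3 : ∀ i, |x i| ≤ max (R₁ i) (R₂ i) := by
    intro i
    have a1 := h1 i hx
    have a2 := h2 i hx
    simp only [inner_neg_left, EuclideanSpace.inner_single_left, map_one, one_mul] at a1 a2
    rw [abs_le]
    constructor
    · linarith [le_max_right (R₁ i) (R₂ i)]
    · linarith [le_max_left (R₁ i) (R₂ i)]
  calc ‖x‖ = ‖∑ i, x i • (EuclideanSpace.basisFun (Fin d) ℝ i)‖ := by
        congr 1
        simpa using ((EuclideanSpace.basisFun (Fin d) ℝ).sum_repr x).symm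
    _ ≤ ∑ i, ‖x i • (EuclideanSpace.basisFun (Fin d) ℝ i)‖ := norm_sum_le _ _
    _ ≤ _ := Finset.sum_le_sum fun i _ => by
        rw [norm_smul, (EuclideanSpace.basisFun (Fin d) ℝ).orthonormal.1 i, mul_one]
        exact h3 i

end Pool.Agent.P.MP_5ab436_an
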