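import Pool.Agent.P.MP_5ab436_an.Weak
import Pool.Agent.P.MP_5ab436_an.Frame

/-!
The form domain as a subspace of `L²`, multiplication operators and the localisation formula.
-/

set_option autoImplicit false

open MeasureTheory
open scoped ENNReal InnerProductSpace

namespace Pool.Agent.P.MP_5ab436_an

variable {d : ℕ}

/-- A measurable multiplier with values in `[0,1]`. -/
structure Mult (d : ℕ) where
  f : Rd d → ℝ
  meas : Measurable f
  nonneg : ∀ x, 0 ≤ f x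
  le_one : ∀ x, f x ≤ 1

section op

variable {F : Type} [NormedAddCommGroup F] [InnerProductSpace ℝ F]

lemma Mult.memLp (η : Mult d) (u : Lp F 2 (volume : Measure (Rd d))) :
    MemLp (fun x => η.f x • u x) 2 volume := by
  refine (Lp.memLp u).of_le (η.meas.aestronglyMeasurable.smul (Lp.aestronglyMeasurable u))
    (Filter.Eventually.of_forall fun x => ?_)
  rw [norm_smul, Real.norm_of_nonneg (η.nonneg x)]
  exact mul_le_of_le_one_left (norm_nonneg _) (η.le_one x)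

/-- Multiplication operator. -/
noncomputable def Mult.op (η : Mult d) :
    Lp F 2 (volume : Measure (Rd d)) →ₗ[ℝ] Lp F 2 (volume : Measure (Rd d)) where
  toFun u := (η.memLp u).toLp
  map_add' u w := by
    refine Lp.ext ?_
    filter_upwards [(η.memLp (u + w)).coeFn_toLp, (η.memLp u).coeFn_toLp, (η.memLp w).coeFn_toLp,
      Lp.coeFn_add u w, Lp.coeFn_add (η.memLp u).toLp (η.memLp w).toLp] with x h1 h2 h3 h4 h5
    rw [h1, h5, Pi.add_apply, h2, h3, h4, Pi.add_apply, smul_add]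
  map_smul' c u := by
    refine Lp.ext ?_
    filter_upwards [(η.memLp (c • u)).coeFn_toLp, (η.memLp u).coeFn_toLp,
      Lp.coeFn_smul c u, Lp.coeFn_smul c (η.memLp u).toLp] with x h1 h2 h3 h4
    rw [h1, RingHom.id_apply, h4, Pi.smul_apply, h2, h3, Pi.smul_apply, smul_comm]

lemma Mult.coeFn_op (η : Mult d) (u : Lp F 2 (volume : Measure (Rd d))) :
    η.op u =ᵐ[volume] fun x => η.f x • u x := (η.memLp u).coeFn_toLp

lemma Mult.norm_op_le (η : Mult d) (u : Lp F 2 (volume : Measure (Rd d))) : ‖η.op u‖ ≤ ‖u‖ := by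
  refine Lp.norm_le_norm_of_ae_le ?_
  filter_upwards [η.coeFn_op u] with x hx
  rw [hx, norm_smul, Real.norm_of_nonneg (η.nonneg x)]
  exact mul_le_of_le_one_left (norm_nonneg _) (η.le_one x)

lemma Mult.inner_op (η : Mult d) (u w : Lp F 2 (volume : Measure (Rd d))) :
    ⟪η.op u, w⟫_ℝ = ⟪u, η.op w⟫_ℝ := by
  rw [L2.inner_def, L2.inner_def]
  refine integral_congr_ae ?_
  filter_upwards [η.coeFn_op u, η.coeFn_op w] with x h1 h2
  rw [h1, h2, real_inner_smul_left, real_inner_smul_right]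

lemma Mult.norm_op_mono (η θ : Mult d) (h : ∀ x, η.f x ≤ θ.f x)
    (u : Lp F 2 (volume : Measure (Rd d))) : ‖η.op u‖ ≤ ‖θ.op u‖ := by
  refine Lp.norm_le_norm_of_ae_le ?_
  filter_upwards [η.coeFn_op u, θ.coeFn_op u] with x h1 h2
  rw [h1, h2, norm_smul, norm_smul, Real.norm_of_nonneg (η.nonneg x),
    Real.norm_of_nonneg (θ.nonneg x)]
  exact mul_le_mul_of_nonneg_right (h x) (norm_nonneg _)

end op

/-- Indicator multiplier. -/
noncomputable def ind (A : Set (Rd d)) (hA : MeasurableSet A) : Mult d where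
  f := A.indicator 1
  meas := measurable_one.indicator hA
  nonneg := fun x => by by_cases h : x ∈ A <;> simp [h]
  le_one := fun x => by by_cases h : x ∈ A <;> simp [h]

lemma ofReal_norm_ind_sq (A : Set (Rd d)) (hA : MeasurableSet A) (u : LH d) :
    ENNReal.ofReal (‖(ind A hA).op u‖ ^ 2) = ∫⁻ x in A, ‖u x‖ₑ ^ 2 := by
  rw [← lintegral_enorm_sq, ← lintegral_indicator hA]
  refine lintegral_congr_ae ?_
  filter_upwards [(ind A hA).coeFn_op u] with x hx
  rw [hx]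
  by_cases h : x ∈ A <;> simp [ind, h]

/-- A smooth cut-off function with values in `[0,1]` and bounded gradient. -/
structure Cut (d : ℕ) extends Mult d where
  ξ : Rd d → Rd d
  K : ℝ
  smooth : ContDiff ℝ (⊤ : ℕ∞) f
  fderiv_eq : ∀ x e, fderiv ℝ f x e = ⟪ξ x, e⟫_ℝ
  ξmeas : Measurable ξ
  ξbound : ∀ x, ‖ξ x‖ ≤ K

lemma Cut.K_nonneg (η : Cut d) : 0 ≤ η.K := (norm_nonneg _).trans (η.ξbound 0)

lemma Cut.memLp_vec (η : Cut d) (u : LH d) : MemLp (fun x => u x • η.ξ x) 2 volume := by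
  refine MemLp.of_le_mul (c := η.K) (Lp.memLp u)
    ((Lp.aestronglyMeasurable u).smul η.ξmeas.aestronglyMeasurable)
    (Filter.Eventually.of_forall fun x => ?_)
  rw [norm_smul, mul_comm]
  exact mul_le_mul_of_nonneg_right (η.ξbound x) (norm_nonneg _)

/-- The vector field `u ∇η`. -/
noncomputable def Cut.vec (η : Cut d) (u : LH d) : LG d := (η.memLp_vec u).toLp

lemma Cut.coeFn_vec (η : Cut d) (u : LH d) : η.vec u =ᵐ[volume] fun x => u x • η.ξ x :=
  (η.memLp_vec u).coeFn_toLp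

lemma Cut.vec_op (η : Cut d) (u : LH d) : η.vec (η.toMult.op u) = η.toMult.op (η.vec u) := by
  refine Lp.ext ?_
  filter_upwards [η.coeFn_vec (η.toMult.op u), η.toMult.coeFn_op u, η.toMult.coeFn_op (η.vec u),
    η.coeFn_vec u] with x h1 h2 h3 h4
  rw [h1, h2, h3, h4, smul_assoc]

lemma Cut.norm_vec_le (η : Cut d) (A : Set (Rd d)) (hA : MeasurableSet A)
    (h : ∀ x, x ∉ A → η.ξ x = 0) (u : LH d) : ‖η.vec u‖ ≤ η.K * ‖(ind A hA).op u‖ := by
  refine Lp.norm_le_mul_norm_of_ae_le_mul ?_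
  filter_upwards [η.coeFn_vec u, (ind A hA).coeFn_op u] with x h1 h2
  rw [h1, h2]
  by_cases hx : x ∈ A
  · simp only [ind, hx, Set.indicator_of_mem, Pi.one_apply, one_smul]
    rw [norm_smul, mul_comm]
    exact mul_le_mul_of_nonneg_right (η.ξbound x) (norm_nonneg _)
  · simp [h x hx, ind, hx]

lemma Cut.norm_vec_le' (η : Cut d) (u : LH d) : ‖η.vec u‖ ≤ η.K * ‖u‖ :=
  (η.norm_vec_le Set.univ MeasurableSet.univ (by simp) u).trans
    (mul_le_mul_of_nonneg_left (Mult.norm_op_le _ _) η.K_nonneg)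

section domain

variable {V : Rd d → ℝ≥0∞}

lemma enorm_add_sq_le (a b : ℝ) : ‖a + b‖ₑ ^ 2 ≤ 2 * ‖a‖ₑ ^ 2 + 2 * ‖b‖ₑ ^ 2 := by
  have : ‖a + b‖ ^ 2 ≤ 2 * ‖a‖ ^ 2 + 2 * ‖b‖ ^ 2 := by
    simp only [Real.norm_eq_abs, sq_abs]
    nlinarith [sq_nonneg (a - b)]
  have h2 := ENNReal.ofReal_le_ofReal this
  rw [ENNReal.ofReal_add (by positivity) (by positivity), ENNReal.ofReal_mul (by norm_num),
    ENNReal.ofReal_mul (by norm_num), ENNReal.ofReal_pow (norm_nonneg _),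
    ENNReal.ofReal_pow (norm_nonneg _), ENNReal.ofReal_pow (norm_nonneg _), ofReal_norm,
    ofReal_norm, ofReal_norm] at h2
  simpa using h2

/-- The form domain `H¹_V` as a submodule of `L²`. -/
def dom (hV : Measurable V) : Submodule ℝ (LH d) where
  carrier := H1V V
  add_mem' := by
    rintro u w ⟨⟨g, hg⟩, hu⟩ ⟨⟨g', hg'⟩, hw⟩
    refine ⟨⟨g + g', ?_⟩, ?_⟩
    · exact (hg.add hg' (Lp.memLp u) (Lp.memLp w) (Lp.memLp g) (Lp.memLp g')).congr
        (Lp.coeFn_add u w).symm (Lp.coeFn_add g g').symm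
    · have hum : Measurable (fun x => V x * ‖u x‖ₑ ^ 2) :=
        hV.mul ((Lp.stronglyMeasurable u).measurable.enorm.pow_const 2)
      have hwm : Measurable (fun x => V x * ‖w x‖ₑ ^ 2) :=
        hV.mul ((Lp.stronglyMeasurable w).measurable.enorm.pow_const 2)
      calc ∫⁻ x, V x * ‖(u + w) x‖ₑ ^ 2
          ≤ ∫⁻ x, (2 * (V x * ‖u x‖ₑ ^ 2) + 2 * (V x * ‖w x‖ₑ ^ 2)) := by
            refine lintegral_mono_ae ?_
            filter_upwards [Lp.coeFn_add u w] with x hx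
            rw [hx, Pi.add_apply]
            calc V x * ‖u x + w x‖ₑ ^ 2 ≤ V x * (2 * ‖u x‖ₑ ^ 2 + 2 * ‖w x‖ₑ ^ 2) := by
                  gcongr; exact enorm_add_sq_le _ _
              _ = _ := by ring
        _ = 2 * (∫⁻ x, V x * ‖u x‖ₑ ^ 2) + 2 * ∫⁻ x, V x * ‖w x‖ₑ ^ 2 := by
            rw [lintegral_add_left (hum.const_mul 2), lintegral_const_mul _ hum,
              lintegral_const_mul _ hwm]
        _ < ⊤ := by finiteness
  zero_mem' := by
    refine ⟨⟨0, isWeakGradient_zero.congr (Lp.coeFn_zero _ _ _).symm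
      (Lp.coeFn_zero _ _ _).symm⟩, ?_⟩
    have : ∫⁻ x, V x * ‖(0 : LH d) x‖ₑ ^ 2 = ∫⁻ _ : Rd d, 0 := by
      refine lintegral_congr_ae ?_
      filter_upwards [Lp.coeFn_zero ℝ 2 (volume : Measure (Rd d))] with x hx
      rw [hx]; simp
    rw [this]; simp
  smul_mem' := by
    rintro c u ⟨⟨g, hg⟩, hu⟩
    refine ⟨⟨c • g, (hg.smul c).congr (Lp.coeFn_smul c u).symm (Lp.coeFn_smul c g).symm⟩, ?_⟩
    have : ∫⁻ x, V x * ‖(c • u) x‖ₑ ^ 2 = ‖c‖ₑ ^ 2 * ∫⁻ x, V x * ‖u x‖ₑ ^ 2 := by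
      rw [← lintegral_const_mul' _ _ (by finiteness)]
      refine lintegral_congr_ae ?_
      filter_upwards [Lp.coeFn_smul c u] with x hx
      rw [hx, Pi.smul_apply, enorm_smul]; ring
    rw [this]; finiteness

variable (hV : Measurable V)

lemma mem_dom {u : LH d} : u ∈ dom hV ↔ u ∈ H1V V := Iff.rfl

lemma grad_unique {u : LH d} {g g' : LG d} (h : IsWeakGradient u g) (h' : IsWeakGradient u g') :
    g = g' := Lp.ext (h.unique h' (Lp.memLp g) (Lp.memLp g'))

/-- The weak gradient. -/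
noncomputable def grad : dom hV →ₗ[ℝ] LG d where
  toFun u := u.2.1.choose
  map_add' u w := by
    refine grad_unique (u + w).2.1.choose_spec ?_
    exact (u.2.1.choose_spec.add w.2.1.choose_spec (Lp.memLp _) (Lp.memLp _) (Lp.memLp _)
      (Lp.memLp _)).congr (Lp.coeFn_add u.1 w.1).symm (Lp.coeFn_add _ _).symm
  map_smul' c u := by
    refine grad_unique (c • u).2.1.choose_spec ?_
    exact (u.2.1.choose_spec.smul c).congr (Lp.coeFn_smul c u.1).symm (Lp.coeFn_smul c _).symm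

lemma isWeakGradient_grad (u : dom hV) : IsWeakGradient (u : LH d) (grad hV u) :=
  u.2.1.choose_spec

lemma ae_eq_zero_of_top (u : dom hV) :
    ∀ᵐ x ∂(volume : Measure (Rd d)), V x = ⊤ → (u : LH d) x = 0 := by
  have hum : Measurable (fun x => V x * ‖(u : LH d) x‖ₑ ^ 2) :=
    hV.mul ((Lp.stronglyMeasurable (u : LH d)).measurable.enorm.pow_const 2)
  filter_upwards [ae_lt_top hum u.2.2.ne] with x hx hVx
  by_contra h0
  rw [hVx, ENNReal.top_mul (by simpa using h0)] at hx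
  exact lt_irrefl _ hx

lemma ae_enorm_pot (u : dom hV) : ∀ᵐ x ∂(volume : Measure (Rd d)),
    ‖√((V x).toReal) * (u : LH d) x‖ₑ ^ 2 = V x * ‖(u : LH d) x‖ₑ ^ 2 := by
  filter_upwards [ae_eq_zero_of_top hV u] with x hx
  by_cases h : V x = ⊤
  · simp [hx h]
  · rw [enorm_mul, mul_pow]
    congr 1
    rw [← ofReal_norm, ← ENNReal.ofReal_pow (norm_nonneg _), Real.norm_eq_abs, sq_abs,
      Real.sq_sqrt ENNReal.toReal_nonneg, ENNReal.ofReal_toReal h]

lemma memLp_pot (u : dom hV) : MemLp (fun x => √((V x).toReal) * (u : LH d) x) 2 volume := by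
  refine ⟨(hV.ennreal_toReal.sqrt.mul
    (Lp.stronglyMeasurable (u : LH d)).measurable).aestronglyMeasurable, ?_⟩
  rw [eLpNorm_lt_top_iff_lintegral_rpow_enorm_lt_top (by norm_num) (by norm_num)]
  have : ∫⁻ x, ‖√((V x).toReal) * (u : LH d) x‖ₑ ^ (2 : ℝ≥0∞).toReal =
      ∫⁻ x, V x * ‖(u : LH d) x‖ₑ ^ 2 := by
    refine lintegral_congr_ae ?_
    filter_upwards [ae_enorm_pot hV u] with x hx
    rw [← hx]
    simp
  rw [this]
  exact u.2.2

/-- The map `u ↦ √V u`. -/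
noncomputable def pot : dom hV →ₗ[ℝ] LH d where
  toFun u := (memLp_pot hV u).toLp
  map_add' u w := by
    refine Lp.ext ?_
    filter_upwards [(memLp_pot hV (u + w)).coeFn_toLp, (memLp_pot hV u).coeFn_toLp,
      (memLp_pot hV w).coeFn_toLp, Lp.coeFn_add u.1 w.1,
      Lp.coeFn_add (memLp_pot hV u).toLp (memLp_pot hV w).toLp] with x h1 h2 h3 h4 h5
    rw [h1, h5, Pi.add_apply, h2, h3, Submodule.coe_add, h4, Pi.add_apply, mul_add]
  map_smul' c u := by
    refine Lp.ext ?_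
    filter_upwards [(memLp_pot hV (c • u)).coeFn_toLp, (memLp_pot hV u).coeFn_toLp,
      Lp.coeFn_smul c u.1, Lp.coeFn_smul c (memLp_pot hV u).toLp] with x h1 h2 h3 h4
    rw [h1, RingHom.id_apply, h4, Pi.smul_apply, h2, Submodule.coe_smul, h3, Pi.smul_apply,
      smul_eq_mul, smul_eq_mul]
    ring

lemma coeFn_pot (u : dom hV) :
    pot hV u =ᵐ[volume] fun x => √((V x).toReal) * (u : LH d) x := (memLp_pot hV u).coeFn_toLp

lemma lintegral_pot (u : dom hV) :
    ∫⁻ x, V x * ‖(u : LH d) x‖ₑ ^ 2 = ENNReal.ofReal (‖pot hV u‖ ^ 2) := by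
  rw [← lintegral_enorm_sq]
  refine lintegral_congr_ae ?_
  filter_upwards [ae_enorm_pot hV u, coeFn_pot hV u] with x h1 h2
  rw [h2, h1]

/-- The map whose squared norm is the quadratic form. -/
noncomputable def TT : dom hV →ₗ[ℝ] WithLp 2 (LG d × LH d) :=
  (WithLp.linearEquiv 2 ℝ (LG d × LH d)).symm.toLinearMap.comp ((grad hV).prod (pot hV))

lemma inner_TT (u w : dom hV) :
    ⟪TT hV u, TT hV w⟫_ℝ = ⟪grad hV u, grad hV w⟫_ℝ + ⟪pot hV u, pot hV w⟫_ℝ := by
  simp [TT]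

lemma norm_TT_sq (u : dom hV) : ‖TT hV u‖ ^ 2 = ‖grad hV u‖ ^ 2 + ‖pot hV u‖ ^ 2 := by
  rw [← real_inner_self_eq_norm_sq, inner_TT, real_inner_self_eq_norm_sq,
    real_inner_self_eq_norm_sq]

lemma iInf_grad {u : LH d} {g : LG d} (hg : IsWeakGradient u g) :
    (⨅ (g' : LG d) (_ : IsWeakGradient u g'), ∫⁻ x, ‖g' x‖ₑ ^ 2) = ENNReal.ofReal (‖g‖ ^ 2) := by
  rw [← lintegral_enorm_sq]
  refine le_antisymm (iInf₂_le g hg) (le_iInf₂ fun g' hg' => ?_)
  rw [grad_unique hg hg']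

lemma energy_eq (u : dom hV) : energy V u = ENNReal.ofReal (‖TT hV u‖ ^ 2) := by
  rw [energy, iInf_grad (isWeakGradient_grad hV u), lintegral_pot, norm_TT_sq,
    ENNReal.ofReal_add (by positivity) (by positivity)]

lemma Cut.isWeakGradient_op (η : Cut d) {u : LH d} {g : LG d} (hg : IsWeakGradient u g) :
    IsWeakGradient (η.toMult.op u) (η.toMult.op g + η.vec u : LG d) := by
  refine (hg.mul (Lp.memLp u) (Lp.memLp g) η.smooth η.fderiv_eq).congr
    (η.toMult.coeFn_op u).symm ?_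
  filter_upwards [Lp.coeFn_add (η.toMult.op g) (η.vec u), η.toMult.coeFn_op g, η.coeFn_vec u]
    with x h1 h2 h3
  rw [h1, Pi.add_apply, h2, h3]

lemma Cut.op_mem (η : Cut d) (u : dom hV) : η.toMult.op (u : LH d) ∈ dom hV := by
  refine ⟨⟨_, η.isWeakGradient_op (isWeakGradient_grad hV u)⟩, lt_of_le_of_lt ?_ u.2.2⟩
  refine lintegral_mono_ae ?_
  filter_upwards [η.toMult.coeFn_op (u : LH d)] with x hx
  rw [hx, enorm_smul]
  gcongr
  refine mul_le_of_le_one_left' ?_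
  rw [← ofReal_norm, Real.norm_of_nonneg (η.nonneg x)]
  exact ENNReal.ofReal_le_one.mpr (η.le_one x)

/-- The cut-off acting on the form domain. -/
noncomputable def Cut.act (η : Cut d) : dom hV →ₗ[ℝ] dom hV :=
  (η.toMult.op.comp (dom hV).subtype).codRestrict (dom hV) (η.op_mem hV)

@[simp] lemma Cut.coe_act (η : Cut d) (u : dom hV) :
    (η.act hV u : LH d) = η.toMult.op (u : LH d) := rfl

lemma Cut.grad_act (η : Cut d) (u : dom hV) :
    grad hV (η.act hV u) = η.toMult.op (grad hV u) + η.vec u :=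
  grad_unique (isWeakGradient_grad hV _) (η.isWeakGradient_op (isWeakGradient_grad hV u))

lemma Cut.pot_act (η : Cut d) (u : dom hV) : pot hV (η.act hV u) = η.toMult.op (pot hV u) := by
  refine Lp.ext ?_
  filter_upwards [coeFn_pot hV (η.act hV u), η.toMult.coeFn_op (u : LH d),
    η.toMult.coeFn_op (pot hV u), coeFn_pot hV u] with x h1 h2 h3 h4
  rw [h1, h3, h4, Cut.coe_act, h2, smul_eq_mul, smul_eq_mul]
  ring

/-- The localisation formula. -/
lemma Cut.ims (η : Cut d) (u : dom hV) :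
    ‖TT hV (η.act hV u)‖ ^ 2 = ⟪TT hV u, TT hV (η.act hV (η.act hV u))⟫_ℝ + ‖η.vec u‖ ^ 2 := by
  rw [norm_TT_sq, inner_TT, η.grad_act, η.grad_act, η.grad_act, η.pot_act, η.pot_act, η.pot_act,
    Cut.coe_act, η.vec_op, norm_add_sq_real, inner_add_right, ← Mult.inner_op, ← Mult.inner_op,
    ← Mult.inner_op, inner_add_right, real_inner_self_eq_norm_sq, real_inner_self_eq_norm_sq]
  ring

lemma Cut.norm_TT_act_le (η : Cut d) (u : dom hV) :
    ‖TT hV (η.act hV u)‖ ≤ ‖TT hV u‖ + η.K * ‖u‖ := by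
  have h1 : ‖grad hV (η.act hV u)‖ ≤ ‖grad hV u‖ + η.K * ‖u‖ := by
    rw [η.grad_act]
    exact (norm_add_le _ _).trans (add_le_add (Mult.norm_op_le _ _) (η.norm_vec_le' _))
  have h2 : ‖pot hV (η.act hV u)‖ ≤ ‖pot hV u‖ := by
    rw [η.pot_act]; exact Mult.norm_op_le _ _
  have h3 : ‖grad hV u‖ ≤ ‖TT hV u‖ := by
    refine abs_le_of_sq_le_sq' ?_ (norm_nonneg _) |>.2
    rw [norm_TT_sq]; nlinarith [sq_nonneg ‖pot hV u‖]
  have hK : 0 ≤ η.K * ‖u‖ := mul_nonneg η.K_nonneg (norm_nonneg _)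
  refine abs_le_of_sq_le_sq' ?_ (by positivity) |>.2
  have h4 : ‖grad hV (η.act hV u)‖ ^ 2 ≤ (‖grad hV u‖ + η.K * ‖u‖) ^ 2 := by gcongr
  have h5 : ‖pot hV (η.act hV u)‖ ^ 2 ≤ ‖pot hV u‖ ^ 2 := by gcongr
  have h6 := norm_TT_sq hV u
  rw [norm_TT_sq]
  nlinarith

lemma Cut.norm_act_le (η : Cut d) (u : dom hV) : ‖η.act hV u‖ ≤ ‖u‖ :=
  Mult.norm_op_le η.toMult (u : LH d)

end domain

end Pool.Agent.P.MP_5ab436_an
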