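import Pool.Agent.P.MP_5ab436_an.Estimates

/-!
The two steps of the iteration, and finiteness of the optimal eigenvalue.
-/

set_option autoImplicit false

open MeasureTheory Module
open scoped ENNReal InnerProductSpace

namespace Pool.Agent.P.MP_5ab436_an

variable {d : ℕ}

lemma eigenvalue_le {W : Rd d → ℝ≥0∞} {k : ℕ} (S : Submodule ℝ (LH d)) (hk : finrank ℝ S = k)
    (hS : (S : Set (LH d)) ⊆ H1V W) {β : ℝ} (hβ : 0 ≤ β)
    (h : ∀ u ∈ S, energy W u ≤ ENNReal.ofReal (β * ‖u‖ ^ 2)) :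
    eigenvalue W k ≤ ENNReal.ofReal β := by
  refine iInf_le_of_le S (iInf_le_of_le hk (iInf_le_of_le hS ?_))
  refine iSup_le fun u => iSup_le fun hu => iSup_le fun hu0 => ?_
  rw [lintegral_enorm_sq]
  refine ENNReal.div_le_of_le_mul ?_
  rw [← ENNReal.ofReal_mul hβ]
  exact h u hu

lemma exists_good_of_eigenvalue {V : Rd d → ℝ≥0∞} (hV : Measurable V) {k : ℕ} (hk : 1 ≤ k)
    {Λ : ℝ} (hΛ : 0 ≤ Λ) (h : eigenvalue V k ≤ ENNReal.ofReal Λ) {ε : ℝ} (hε : 0 < ε) :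
    ∃ S, Good (TT hV) k Λ ε S := by
  refine exists_good (TT hV) hk Λ (fun ε hε => ?_) hε
  have h1 : eigenvalue V k < ENNReal.ofReal (Λ + ε) :=
    h.trans_lt ((ENNReal.ofReal_lt_ofReal_iff (by positivity)).mpr (by linarith))
  simp only [eigenvalue, iInf_lt_iff] at h1
  obtain ⟨S, hSk, hS, h2⟩ := h1
  have hle : S ≤ dom hV := hS
  refine ⟨S.comap (dom hV).subtype, ?_, fun w hw => ?_⟩
  · rw [(Submodule.comapSubtypeEquivOfLe hle).finrank_eq, hSk]
  · by_cases hw0 : w = 0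
    · subst hw0; simp
    have hw0' : (w : LH d) ≠ 0 := fun h0 => hw0 (Subtype.ext h0)
    have h3 : energy V w / ∫⁻ x, ‖(w : LH d) x‖ₑ ^ 2 ≤ ENNReal.ofReal (Λ + ε) := by
      refine le_trans ?_ h2.le
      exact le_iSup_of_le (w : LH d) (le_iSup_of_le (show (w : LH d) ∈ S from hw)
        (le_iSup (fun _ : (w : LH d) ≠ 0 => energy V w / ∫⁻ x, ‖(w : LH d) x‖ₑ ^ 2) hw0'))
    have hpos : 0 < ‖(w : LH d)‖ ^ 2 := by positivity
    rw [lintegral_enorm_sq, energy_eq, ENNReal.div_le_iff (by simpa using hw0')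
      ENNReal.ofReal_ne_top, ← ENNReal.ofReal_mul (by positivity),
      ENNReal.ofReal_le_ofReal_iff (by positivity)] at h3
    exact h3

lemma exists_finite_competitor (hd : 1 ≤ d) {p : ℝ} (hp : 0 < p) (k : ℕ) :
    ∃ W ∈ admissible d p, eigenvalue W k < ⊤ := by
  classical
  let e : Rd d := EuclideanSpace.single ⟨0, hd⟩ 1
  have he : ‖e‖ = 1 := by simp [e]
  let B : Set (Rd d) := Metric.ball 0 (3 * k + 1)
  have hB : MeasurableSet B := Metric.isOpen_ball.measurableSet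
  have hBfin : volume B < ⊤ := measure_ball_lt_top
  set c : ℝ≥0∞ := (volume B + 1) ^ p⁻¹ with hc
  have hcfin : c ≠ ⊤ := by
    rw [hc]; finiteness
  let W : Rd d → ℝ≥0∞ := fun x => if x ∈ B then c else ⊤
  have hW : Measurable W := Measurable.ite hB measurable_const measurable_const
  refine ⟨W, ⟨hW.aemeasurable, ?_⟩, ?_⟩
  · have h1 : (fun x => W x ^ (-p)) = B.indicator (fun _ => (volume B + 1)⁻¹) := by
      funext x
      by_cases hx : x ∈ B
      · simp only [W, hx, if_true, Set.indicator_of_mem]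
        rw [hc, ENNReal.rpow_neg, ← ENNReal.rpow_mul, inv_mul_cancel₀ hp.ne', ENNReal.rpow_one]
      · simp only [W, hx, if_false, Set.indicator_of_notMem, not_false_eq_true]
        exact ENNReal.top_rpow_of_neg (by linarith)
    rw [h1, lintegral_indicator_const hB]
    calc (volume B + 1)⁻¹ * volume B ≤ (volume B + 1)⁻¹ * (volume B + 1) := by
          gcongr; exact le_self_add
      _ = 1 := ENNReal.inv_mul_cancel (by simp) (by finiteness)
  · let f : (j : Fin k) → ContDiffBump ((3 * (j : ℝ)) • e) :=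
      fun j => ⟨1 / 2, 1, by norm_num, by norm_num⟩
    have hfs : ∀ j, ContDiff ℝ (⊤ : ℕ∞) (f j) := fun j => (f j).contDiff
    have hfc : ∀ j, HasCompactSupport (f j) := fun j => (f j).hasCompactSupport
    have hfm : ∀ j, MemLp (f j) 2 volume :=
      fun j => (f j).continuous.memLp_of_hasCompactSupport (hfc j)
    let F : Fin k → LH d := fun j => (hfm j).toLp (f j)
    have hF : ∀ j, F j =ᵐ[volume] f j := fun j => (hfm j).coeFn_toLp
    have hsupp : ∀ j x, f j x ≠ 0 → dist x ((3 * (j : ℝ)) • e) < 1 := by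
      intro j x hx
      have : x ∈ Function.support (f j) := hx
      rw [(f j).support_eq] at this
      exact this
    have hmem : ∀ j, F j ∈ dom hW := by
      intro j
      have hgc : Continuous (gradient (f j)) :=
        (InnerProductSpace.toDual ℝ (Rd d)).symm.continuous.comp
          ((hfs j).continuous_fderiv (by simp))
      have hgs : HasCompactSupport (gradient (f j)) :=
        ((hfc j).fderiv ℝ).comp_left (g := (InnerProductSpace.toDual ℝ (Rd d)).symm) (by simp)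
      have hgm : MemLp (gradient (f j)) 2 volume := hgc.memLp_of_hasCompactSupport hgs
      refine ⟨⟨hgm.toLp, (isWeakGradient_of_test (hfs j)).congr (hF j).symm
        hgm.coeFn_toLp.symm⟩, ?_⟩
      calc ∫⁻ x, W x * ‖F j x‖ₑ ^ 2 ≤ ∫⁻ x, c * ‖F j x‖ₑ ^ 2 := by
            refine lintegral_mono_ae ?_
            filter_upwards [hF j] with x hx
            by_cases hxB : x ∈ B
            · simp [W, hxB]
            · have : f j x = 0 := by
                by_contra h0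
                apply hxB
                have h1 := hsupp j x h0
                have h2 : ‖(3 * (j : ℝ)) • e‖ ≤ 3 * k := by
                  rw [norm_smul, he, mul_one, Real.norm_of_nonneg (by positivity)]
                  have : (j : ℝ) ≤ k := by exact_mod_cast j.2.le
                  linarith
                rw [mem_ball_zero_iff]
                rw [dist_eq_norm] at h1
                have h3 := norm_add_le (x - (3 * (j : ℝ)) • e) ((3 * (j : ℝ)) • e)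
                rw [sub_add_cancel] at h3
                linarith
              rw [hx, this]; simp
        _ = c * ENNReal.ofReal (‖F j‖ ^ 2) := by
            rw [lintegral_const_mul' _ _ hcfin, lintegral_enorm_sq]
        _ < ⊤ := by finiteness
    have hli : LinearIndependent ℝ F := by
      refine linearIndependent_of_ne_zero_of_inner_eq_zero (fun j h0 => ?_) (fun i j hij => ?_)
      · have h1 : (f j : Rd d → ℝ) =ᵐ[volume] 0 := by
          have := hF j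
          rw [h0] at this
          exact this.symm.trans (Lp.coeFn_zero _ _ _)
        have h2 : (f j : Rd d → ℝ) = 0 :=
          (Continuous.ae_eq_iff_eq volume (f j).continuous continuous_zero).mp h1
        have h3 : f j ((3 * (j : ℝ)) • e) = 1 :=
          (f j).one_of_mem_closedBall (Metric.mem_closedBall_self (by simp [f]))
        rw [h2] at h3
        simp at h3
      · change ⟪F i, F j⟫_ℝ = 0
        rw [inner_eq_integral]
        have : ∫ x, F i x * F j x = ∫ _ : Rd d, (0 : ℝ) := by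
          refine integral_congr_ae ?_
          filter_upwards [hF i, hF j] with x h1 h2
          rw [h1, h2]
          by_contra h0
          have a1 := hsupp i x (left_ne_zero_of_mul h0)
          have a2 := hsupp j x (right_ne_zero_of_mul h0)
          have a3 : dist ((3 * (i : ℝ)) • e) ((3 * (j : ℝ)) • e) < 2 := by
            have := dist_triangle_left ((3 * (i : ℝ)) • e) ((3 * (j : ℝ)) • e) x
            linarith
          rw [dist_eq_norm, ← sub_smul, norm_smul, he, mul_one, Real.norm_eq_abs, abs_lt] at a3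
          have a4 : (i : ℕ) ≠ j := fun h => hij (Fin.ext h)
          rcases Nat.lt_or_gt_of_ne a4 with h | h
          · have : (i : ℝ) + 1 ≤ j := by exact_mod_cast h
            linarith [a3.1]
          · have : (j : ℝ) + 1 ≤ i := by exact_mod_cast h
            linarith [a3.2]
        rw [this]; simp
    let S : Submodule ℝ (LH d) := Submodule.span ℝ (Set.range F)
    have hSk : finrank ℝ S = k := by
      rw [finrank_span_eq_card hli]; simp
    have hle : S ≤ dom hW := Submodule.span_le.mpr (by rintro _ ⟨j, rfl⟩; exact hmem j)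
    have : FiniteDimensional ℝ S := FiniteDimensional.span_of_finite ℝ (Set.finite_range _)
    let T : S →L[ℝ] WithLp 2 (LG d × LH d) :=
      LinearMap.toContinuousLinearMap ((TT hW).comp (Submodule.inclusion hle))
    refine (eigenvalue_le S hSk hle (β := ‖T‖ ^ 2) (by positivity) fun u hu => ?_).trans_lt
      ENNReal.ofReal_lt_top
    have h1 := energy_eq hW ⟨u, hle hu⟩
    simp only at h1
    rw [h1]
    refine ENNReal.ofReal_le_ofReal ?_
    rw [← mul_pow]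
    have h2 : ‖T ⟨u, hu⟩‖ ≤ ‖T‖ * ‖(⟨u, hu⟩ : S)‖ := T.le_opNorm _
    gcongr
    exact h2

lemma K_bound {δ A : ℝ} (hδ : 0 < δ) (hδ1 : δ ≤ 1) (hA : 0 ≤ A) :
    A + 2 * (Lχ / δ) + (Lχ / δ) ^ 2 ≤ (A + 2 * Lχ + Lχ ^ 2) / δ ^ 2 := by
  have hL := Lχ_nonneg
  rw [le_div_iff₀ (by positivity)]
  have h1 : δ ^ 2 ≤ 1 := by nlinarith
  have h2 : (A + 2 * (Lχ / δ) + (Lχ / δ) ^ 2) * δ ^ 2 = A * δ ^ 2 + 2 * Lχ * δ + Lχ ^ 2 := by
    field_simp
  rw [h2]
  have h3 : A * δ ^ 2 ≤ A * 1 := by gcongr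
  have h4 : Lχ * δ ≤ Lχ * 1 := by gcongr
  linarith

/-- Optimality bounds the mass beyond a half-space by the tails of approximate eigenfunctions. -/
lemma mass_step (d : ℕ) {p : ℝ} (hp : 0 < p) {k : ℕ} (hk : 1 ≤ k) {Λ : ℝ} (hΛ : 0 ≤ Λ) :
    ∃ C ≥ (1 : ℝ), ∀ (V : Rd d → ℝ≥0∞) (hV : Measurable V), ∫⁻ x, V x ^ (-p) ≤ 1 →
      (∀ W ∈ admissible d p, ENNReal.ofReal Λ ≤ eigenvalue W k) →
      ∀ (ε a : ℝ) (S : Submodule ℝ (dom hV)) (e : Rd d) (r δ : ℝ), ‖e‖ = 1 → 0 ≤ ε → ε ≤ 1 →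
        ε ≤ a → 0 < δ → δ ≤ 1 → Good (TT hV) k Λ ε S →
        Tail hV (measurableSet_half e r) S a →
        ∫⁻ x in half e (r + δ), V x ^ (-p) ≤ ENNReal.ofReal (C * a / δ ^ 2) := by
  classical
  obtain ⟨c₀, hc₀, hpot⟩ := exists_pot_lower d hp (Γ := Λ + 1) (by positivity)
  obtain ⟨P, hP⟩ := exists_nat_ge (max p 1)
  have hP1 : (1 : ℝ) ≤ P := (le_max_right _ _).trans hP
  have hPp : p ≤ P := (le_max_left _ _).trans hP
  have hL := Lχ_nonneg
  set C₁ : ℝ := 4 * Λ + 6 + 2 * Lχ + Lχ ^ 2 with hC₁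
  have hC₁6 : 6 ≤ C₁ := by rw [hC₁]; nlinarith
  have hq : 0 ≤ 2 * P / c₀ := by positivity
  refine ⟨(1 + 2 * P / c₀) * (2 * Λ + 2 * C₁), by nlinarith, ?_⟩
  intro V hV hm hopt ε a S e r δ he hε hε1 hεa hδ hδ1 hS hT
  have ha : 0 ≤ a := hε.trans hεa
  set Z' := half e (r + δ) with hZ'
  have hZ'm : MeasurableSet Z' := measurableSet_half e (r + δ)
  have hm'1 : ∫⁻ x in Z', V x ^ (-p) ≤ 1 := (setLIntegral_le_lintegral _ _).trans hm
  set m' : ℝ := (∫⁻ x in Z', V x ^ (-p)).toReal with hm'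
  have hm'eq : ∫⁻ x in Z', V x ^ (-p) = ENNReal.ofReal m' :=
    (ENNReal.ofReal_toReal (ne_top_of_le_ne_top ENNReal.one_ne_top hm'1)).symm
  have hm'0 : 0 ≤ m' := ENNReal.toReal_nonneg
  have hm'le : m' ≤ 1 := by
    rw [hm'eq] at hm'1; exact ENNReal.ofReal_le_one.mp hm'1
  rw [hm'eq]
  refine ENNReal.ofReal_le_ofReal ?_
  set E : ℝ := (2 * Λ + 2 * C₁) * a / δ ^ 2 with hE
  have hE0 : 0 ≤ E := by positivity
  have hgoal : (1 + 2 * P / c₀) * (2 * Λ + 2 * C₁) * a / δ ^ 2 = (1 + 2 * P / c₀) * E := by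
    rw [hE]; ring
  rw [hgoal]
  by_cases hE1 : 1 ≤ E
  · nlinarith
  push Not at hE1
  have hδ2 : δ ^ 2 ≤ 1 := by nlinarith
  have haE : (2 * Λ + 2 * C₁) * a ≤ E := by
    rw [hE, le_div_iff₀ (by positivity)]
    have : (2 * Λ + 2 * C₁) * a * δ ^ 2 ≤ (2 * Λ + 2 * C₁) * a * 1 := by gcongr
    linarith
  have ha2 : a ≤ 1 / 2 := by nlinarith
  obtain ⟨η, hηK, hη1, hηξ, hη0⟩ := exists_cut_down e he r hδ
  -- the estimates on the truncated functions
  have hest : ∀ w ∈ S, ‖TT hV (η.act hV w)‖ ^ 2 ≤ (Λ + E) * ‖η.act hV w‖ ^ 2 ∧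
      ‖w‖ ^ 2 ≤ 2 * ‖η.act hV w‖ ^ 2 := by
    intro w hw
    obtain ⟨h1, h2⟩ := truncation hV (measurableSet_half e r) hk hΛ hε hε1 hεa hS hT η hη1 hηξ hw
    have h3 : ‖w‖ ^ 2 ≤ (1 + 2 * a) * ‖η.act hV w‖ ^ 2 := by
      have : (1 + 2 * a) * ((1 - a) * ‖w‖ ^ 2) ≤ (1 + 2 * a) * ‖η.act hV w‖ ^ 2 := by gcongr
      have h4 : 0 ≤ a * (1 - 2 * a) * ‖w‖ ^ 2 := by
        have : 0 ≤ 1 - 2 * a := by linarith
        positivity
      nlinarith
    refine ⟨?_, h3.trans (by gcongr; linarith)⟩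
    have h4 : 4 * Λ + 6 + 2 * η.K + η.K ^ 2 ≤ C₁ / δ ^ 2 := by
      rw [hηK]; exact K_bound hδ hδ1 (by positivity)
    have h5 : (Λ + a * (C₁ / δ ^ 2)) * (1 + 2 * a) ≤ Λ + E := by
      have h6 : a * (C₁ / δ ^ 2) * (1 + 2 * a) ≤ a * (C₁ / δ ^ 2) * 2 := by
        gcongr; linarith
      have h7 : 2 * Λ * a ≤ 2 * Λ * a / δ ^ 2 := by
        rw [le_div_iff₀ (by positivity)]
        have : 2 * Λ * a * δ ^ 2 ≤ 2 * Λ * a * 1 := by gcongr
        linarith
      have h8 : E = 2 * Λ * a / δ ^ 2 + a * (C₁ / δ ^ 2) * 2 := by rw [hE]; ring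
      nlinarith
    calc ‖TT hV (η.act hV w)‖ ^ 2 ≤ (Λ + a * (C₁ / δ ^ 2)) * ‖w‖ ^ 2 := h1.trans (by gcongr)
      _ ≤ (Λ + a * (C₁ / δ ^ 2)) * ((1 + 2 * a) * ‖η.act hV w‖ ^ 2) := by gcongr
      _ = ((Λ + a * (C₁ / δ ^ 2)) * (1 + 2 * a)) * ‖η.act hV w‖ ^ 2 := by ring
      _ ≤ _ := by gcongr
  -- the competitor
  set c : ℝ := 1 - m' / (2 * P) with hcdef
  have hmP : m' / (2 * P) ≤ 1 / 2 := by
    rw [div_le_iff₀ (by positivity)]; linarith
  have hmP0 : 0 ≤ m' / (2 * P) := by positivity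
  have hc0 : 0 < c := by linarith
  have hc1 : c ≤ 1 := by linarith
  have hcp : 1 - m' ≤ c ^ p := by
    have h1 : c ^ (P : ℝ) ≤ c ^ p := Real.rpow_le_rpow_of_exponent_ge hc0 hc1 hPp
    have h2 : 1 + (P : ℝ) * (-(m' / (2 * P))) ≤ (1 + -(m' / (2 * P))) ^ P :=
      one_add_mul_le_pow (by linarith) P
    have h3 : (P : ℝ) * (-(m' / (2 * P))) = -(m' / 2) := by field_simp
    rw [Real.rpow_natCast] at h1
    rw [h3, ← sub_eq_add_neg, ← sub_eq_add_neg] at h2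
    linarith
  let W : Rd d → ℝ≥0∞ := fun x => if x ∈ Z' then ⊤ else ENNReal.ofReal c * V x
  have hW : Measurable W := Measurable.ite hZ'm measurable_const (hV.const_mul _)
  have hWadm : W ∈ admissible d p := by
    refine ⟨hW.aemeasurable, ?_⟩
    have h1 : (fun x => W x ^ (-p)) =
        Z'ᶜ.indicator (fun x => (ENNReal.ofReal (c ^ p))⁻¹ * V x ^ (-p)) := by
      funext x
      by_cases hx : x ∈ Z'
      · simp only [W, hx, if_true]
        rw [Set.indicator_of_notMem (by simpa using hx)]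
        exact ENNReal.top_rpow_of_neg (by linarith)
      · simp only [W, hx, if_false]
        rw [Set.indicator_of_mem (by simpa using hx), ENNReal.rpow_neg, ENNReal.rpow_neg,
          ENNReal.mul_rpow_of_nonneg _ _ hp.le, ENNReal.ofReal_rpow_of_pos hc0,
          ENNReal.mul_inv (Or.inl (by simpa using Real.rpow_pos_of_pos hc0 p))
            (Or.inl ENNReal.ofReal_ne_top)]
    have hcp0 : ENNReal.ofReal (c ^ p) ≠ 0 := by simpa using Real.rpow_pos_of_pos hc0 p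
    rw [h1, lintegral_indicator hZ'm.compl, lintegral_const_mul' _ _ (by simpa using hcp0)]
    have h2 : ∫⁻ x in Z'ᶜ, V x ^ (-p) ≤ ENNReal.ofReal (c ^ p) := by
      have h3 := lintegral_add_compl (μ := volume) (fun x => V x ^ (-p)) hZ'm
      have h4 : ENNReal.ofReal m' + ∫⁻ x in Z'ᶜ, V x ^ (-p) ≤
          ENNReal.ofReal m' + ENNReal.ofReal (c ^ p) := by
        rw [← hm'eq, h3, hm'eq, ← ENNReal.ofReal_add hm'0 (Real.rpow_nonneg hc0.le p)]
        exact hm.trans (ENNReal.one_le_ofReal.mpr (by linarith))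
      exact (ENNReal.add_le_add_iff_left ENNReal.ofReal_ne_top).mp h4
    calc (ENNReal.ofReal (c ^ p))⁻¹ * ∫⁻ x in Z'ᶜ, V x ^ (-p)
        ≤ (ENNReal.ofReal (c ^ p))⁻¹ * ENNReal.ofReal (c ^ p) := by gcongr
      _ = 1 := ENNReal.inv_mul_cancel hcp0 ENNReal.ofReal_ne_top
  have hpotW : ∀ w : dom hV, ∫⁻ x, W x * ‖(η.act hV w : LH d) x‖ₑ ^ 2 =
      ENNReal.ofReal (c * ‖pot hV (η.act hV w)‖ ^ 2) := by
    intro w
    rw [ENNReal.ofReal_mul hc0.le, ← lintegral_pot,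
      ← lintegral_const_mul' _ _ ENNReal.ofReal_ne_top]
    refine lintegral_congr_ae ?_
    filter_upwards [η.toMult.coeFn_op (w : LH d)] with x hx
    by_cases hxZ : x ∈ Z'
    · rw [Cut.coe_act, hx, hη0 x hxZ]; simp
    · simp only [W, hxZ, if_false, mul_assoc]
  let J : S →ₗ[ℝ] LH d := (dom hV).subtype.comp ((η.act hV).comp S.subtype)
  have hJ : Function.Injective J := by
    rw [injective_iff_map_eq_zero]
    intro w hw
    have h1 := (hest w w.2).2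
    have h2 : ‖η.act hV w‖ = 0 := by
      change ‖J w‖ = 0
      rw [hw, norm_zero]
    rw [h2] at h1
    have h3 : ‖(w : dom hV)‖ = 0 := by
      have := sq_nonneg ‖(w : dom hV)‖
      exact pow_eq_zero_iff (n := 2) (by norm_num) |>.mp (by linarith)
    exact Subtype.ext (norm_eq_zero.mp h3)
  have hS'k : finrank ℝ (LinearMap.range J) = k := by
    rw [LinearMap.finrank_range_of_inj hJ, hS.1]
  have hS'W : (LinearMap.range J : Set (LH d)) ⊆ H1V W := by
    rintro _ ⟨w, rfl⟩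
    refine ⟨(η.act hV w).2.1, ?_⟩
    change ∫⁻ x, W x * ‖(η.act hV w : LH d) x‖ₑ ^ 2 < ⊤
    rw [hpotW]; exact ENNReal.ofReal_lt_top
  set β : ℝ := Λ + E - m' / (2 * P) * c₀ with hβ
  have hreal : ∀ w ∈ S, ‖grad hV (η.act hV w)‖ ^ 2 + c * ‖pot hV (η.act hV w)‖ ^ 2 ≤
      β * ‖η.act hV w‖ ^ 2 := by
    intro w hw
    have h1 := (hest w hw).1
    rw [norm_TT_sq] at h1
    have h2 : ‖grad hV (η.act hV w)‖ ^ 2 ≤ (Λ + 1) * ‖η.act hV w‖ ^ 2 := by
      have : (Λ + E) * ‖η.act hV w‖ ^ 2 ≤ (Λ + 1) * ‖η.act hV w‖ ^ 2 := by gcongr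
      nlinarith [sq_nonneg ‖pot hV (η.act hV w)‖]
    have h3 := hpot V hV hm _ h2
    have h4 : m' / (2 * P) * (c₀ * ‖η.act hV w‖ ^ 2) ≤
        m' / (2 * P) * ‖pot hV (η.act hV w)‖ ^ 2 := by gcongr
    rw [hβ, hcdef]
    nlinarith
  have hβ0 : 0 ≤ β := by
    have : Nontrivial S := Module.nontrivial_of_finrank_pos (R := ℝ) (by rw [hS.1]; omega)
    obtain ⟨w, hw⟩ := exists_ne (0 : S)
    have h1 := hreal w w.2
    have h2 : 0 < ‖η.act hV w‖ ^ 2 := by
      have h3 := (hest w w.2).2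
      have h4 : 0 < ‖(w : dom hV)‖ ^ 2 := by
        have : (w : dom hV) ≠ 0 := fun h => hw (Subtype.ext h)
        positivity
      linarith
    have h5 : 0 ≤ ‖grad hV (η.act hV w)‖ ^ 2 + c * ‖pot hV (η.act hV w)‖ ^ 2 := by positivity
    exact nonneg_of_mul_nonneg_left (h5.trans h1) h2
  have hfin : eigenvalue W k ≤ ENNReal.ofReal β := by
    refine eigenvalue_le _ hS'k hS'W hβ0 ?_
    rintro _ ⟨w, rfl⟩
    change energy W (η.act hV w : LH d) ≤ ENNReal.ofReal (β * ‖η.act hV w‖ ^ 2)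
    rw [energy, iInf_grad (isWeakGradient_grad hV _), hpotW,
      ← ENNReal.ofReal_add (by positivity) (by positivity)]
    exact ENNReal.ofReal_le_ofReal (hreal w w.2)
  have h1 : Λ ≤ β := (ENNReal.ofReal_le_ofReal_iff hβ0).mp ((hopt W hWadm).trans hfin)
  have h2 : m' / (2 * P) * c₀ ≤ E := by linarith
  have h3 : m' ≤ 2 * P / c₀ * E := by
    have : m' = 2 * P / c₀ * (m' / (2 * P) * c₀) := by field_simp
    rw [this]; gcongr
  nlinarith

/-- Small mass improves the tails. -/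
lemma tail_step (d : ℕ) {p : ℝ} (hp : 0 < p) {P : ℕ} (hP : p ≤ P) {k : ℕ} (hk : 1 ≤ k) {Λ : ℝ}
    (hΛ : 0 ≤ Λ) :
    ∃ C ≥ (1 : ℝ), ∀ (V : Rd d → ℝ≥0∞) (hV : Measurable V)
      (ε a : ℝ) (S : Submodule ℝ (dom hV)) (e : Rd d) (r δ y : ℝ), ‖e‖ = 1 → 0 ≤ ε → ε ≤ 1 →
        ε ≤ a → 0 < δ → δ ≤ 1 → 0 < y → y ≤ 1 → Good (TT hV) k Λ ε S →
        Tail hV (measurableSet_half e r) S a →
        ∫⁻ x in half e r, V x ^ (-p) ≤ ENNReal.ofReal (y ^ (2 * P + d + 2)) →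
        Tail hV (measurableSet_half e (r + δ)) S (C * y ^ 2 * a / δ ^ 2) := by
  have hL := Lχ_nonneg
  have hω := ω_pos d
  set C₃ : ℝ := 3 * Λ + 4 + 2 * Lχ + Lχ ^ 2 with hC₃
  have hC₃4 : 4 ≤ C₃ := by rw [hC₃]; nlinarith
  have hω' : 0 < 2 / ω d := by positivity
  refine ⟨2 * C₃ + 2 / ω d, by linarith, ?_⟩
  intro V hV ε a S e r δ y he hε hε1 hεa hδ hδ1 hy hy1 hS hT hm w hw
  have ha : 0 ≤ a := hε.trans hεa
  obtain ⟨ζ, hζK, hζ0, hζξ, hζ1⟩ := exists_cut_up e he r hδ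
  have h1 := caccioppoli hV (measurableSet_half e r) hk hΛ hε hε1 hεa hS hT ζ hζ0 hζξ hw
  have h2 : 3 * Λ + 4 + 2 * ζ.K + ζ.K ^ 2 ≤ C₃ / δ ^ 2 := by
    rw [hζK]; exact K_bound hδ hδ1 (by positivity)
  have h3 : ‖TT hV (ζ.act hV w)‖ ^ 2 ≤ a * (C₃ / δ ^ 2) * ‖w‖ ^ 2 := h1.trans (by gcongr)
  have h4 : ‖ζ.act hV w‖ ^ 2 ≤ a * ‖w‖ ^ 2 := by
    have := hT.norm_op_le hV (measurableSet_half e r) ha ζ.toMult hζ0 hw
    calc ‖ζ.act hV w‖ ^ 2 ≤ (√a * ‖w‖) ^ 2 := by gcongr; exact this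
      _ = _ := by rw [mul_pow, Real.sq_sqrt ha]
  have h5 : ‖(ind _ (measurableSet_half e (r + δ))).op (w : LH d)‖ ≤ ‖ζ.act hV w‖ := by
    refine Mult.norm_op_mono _ ζ.toMult (fun x => ?_) _
    by_cases hx : x ∈ half e (r + δ)
    · simp [ind, hx, hζ1 x hx]
    · simpa [ind, hx] using ζ.nonneg x
  have hM : 0 < (y ^ 2)⁻¹ := by positivity
  have h6 := concentration hV hp (measurableSet_half e r) (by positivity) hm (ζ.act hV w) (by
    filter_upwards [ζ.toMult.coeFn_op (w : LH d)] with x hx hxZ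
    rw [Cut.coe_act, hx, hζ0 x hxZ, zero_smul]) hM hy
  have h7 : ((y ^ 2)⁻¹) ^ p ≤ ((y ^ 2)⁻¹) ^ P := by
    rw [← Real.rpow_natCast _ P]
    refine Real.rpow_le_rpow_of_exponent_le ?_ hP
    rw [one_le_inv₀ (by positivity)]
    nlinarith
  have h8 : 2 * (((y ^ 2)⁻¹) ^ p * y ^ (2 * P + d + 2)) / (y ^ d * ω d) ≤ 2 / ω d * y ^ 2 := by
    calc 2 * (((y ^ 2)⁻¹) ^ p * y ^ (2 * P + d + 2)) / (y ^ d * ω d)
        ≤ 2 * (((y ^ 2)⁻¹) ^ P * y ^ (2 * P + d + 2)) / (y ^ d * ω d) := by gcongr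
      _ = _ := by
        rw [inv_pow, ← pow_mul, pow_add, pow_add]
        field_simp
  have hδ2 : δ ^ 2 ≤ 1 := by nlinarith
  have h9 : ‖ζ.act hV w‖ ^ 2 ≤ a / δ ^ 2 * ‖w‖ ^ 2 := by
    refine h4.trans ?_
    gcongr
    rw [le_div_iff₀ (by positivity)]
    nlinarith
  rw [norm_TT_sq] at h3
  have h10 : 2 * (((y ^ 2)⁻¹) ^ p * y ^ (2 * P + d + 2)) / (y ^ d * ω d) * ‖ζ.act hV w‖ ^ 2 ≤
      2 / ω d * y ^ 2 * (a / δ ^ 2 * ‖w‖ ^ 2) := by gcongr
  have h11 : ‖pot hV (ζ.act hV w)‖ ^ 2 / (y ^ 2)⁻¹ + 2 * y ^ 2 * ‖grad hV (ζ.act hV w)‖ ^ 2 ≤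
      2 * y ^ 2 * (a * (C₃ / δ ^ 2) * ‖w‖ ^ 2) := by
    rw [div_inv_eq_mul]
    have : 2 * y ^ 2 * (‖grad hV (ζ.act hV w)‖ ^ 2 + ‖pot hV (ζ.act hV w)‖ ^ 2) ≤
      2 * y ^ 2 * (a * (C₃ / δ ^ 2) * ‖w‖ ^ 2) := by gcongr
    have h0 : 0 ≤ ‖pot hV (ζ.act hV w)‖ ^ 2 * y ^ 2 := by positivity
    linarith
  calc ‖(ind _ (measurableSet_half e (r + δ))).op (w : LH d)‖ ^ 2 ≤ ‖ζ.act hV w‖ ^ 2 := by gcongr
    _ ≤ 2 * y ^ 2 * (a * (C₃ / δ ^ 2) * ‖w‖ ^ 2) + 2 / ω d * y ^ 2 * (a / δ ^ 2 * ‖w‖ ^ 2) := by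
        linarith
    _ = _ := by ring

end Pool.Agent.P.MP_5ab436_an
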