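import Pool.Agent.P.MP_5ab436_an.Defs

/-!
Elementary facts on weak gradients.
-/

set_option autoImplicit false

open MeasureTheory
open scoped ENNReal InnerProductSpace Convolution

namespace Pool.Agent.P.MP_5ab436_an

variable {d : ℕ}

/-- Scalar `L²` space. -/
abbrev LH (d : ℕ) : Type := Lp ℝ 2 (volume : Measure (Rd d))

/-- Vector `L²` space. -/
abbrev LG (d : ℕ) : Type := Lp (Rd d) 2 (volume : Measure (Rd d))

lemma lintegral_enorm_sq {α F : Type*} [MeasurableSpace α] {μ : Measure α}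
    [NormedAddCommGroup F] [InnerProductSpace ℝ F] (f : Lp F 2 μ) :
    ∫⁻ x, ‖f x‖ₑ ^ 2 ∂μ = ENNReal.ofReal (‖f‖ ^ 2) := by
  rw [← real_inner_self_eq_norm_sq, L2.inner_def, ofReal_integral_eq_lintegral_ofReal
    (L2.integrable_inner f f) (Filter.Eventually.of_forall fun x => real_inner_self_nonneg)]
  refine lintegral_congr fun x => ?_
  rw [real_inner_self_eq_norm_sq, ENNReal.ofReal_pow (norm_nonneg _), ofReal_norm]

lemma integrable_mul_test {u : Rd d → ℝ} (hu : MemLp u 2 volume) {ψ : Rd d → ℝ}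
    (hψ : Continuous ψ) (hc : HasCompactSupport ψ) : Integrable (fun x => u x * ψ x) :=
  (hu.locallyIntegrable (by norm_num)).integrable_smul_right_of_hasCompactSupport hψ hc

lemma continuous_fderiv_apply {φ : Rd d → ℝ} (hφ : ContDiff ℝ (⊤ : ℕ∞) φ) (e : Rd d) :
    Continuous (fun x => fderiv ℝ φ x e) :=
  (hφ.continuous_fderiv (by simp)).clm_apply continuous_const

lemma IsWeakGradient.congr {u u' : Rd d → ℝ} {g g' : Rd d → Rd d} (h : IsWeakGradient u g)
    (hu : u =ᵐ[volume] u') (hg : g =ᵐ[volume] g') : IsWeakGradient u' g' := by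
  intro φ hφ hc e
  have h1 := h φ hφ hc e
  have h2 : ∫ x, u' x * fderiv ℝ φ x e = ∫ x, u x * fderiv ℝ φ x e :=
    integral_congr_ae (by filter_upwards [hu] with x hx; rw [hx])
  have h3 : ∫ x, ⟪g' x, e⟫_ℝ * φ x = ∫ x, ⟪g x, e⟫_ℝ * φ x :=
    integral_congr_ae (by filter_upwards [hg] with x hx; rw [hx])
  rw [h2, h3, h1]

lemma IsWeakGradient.add {u u' : Rd d → ℝ} {g g' : Rd d → Rd d} (h : IsWeakGradient u g)
    (h' : IsWeakGradient u' g') (hu : MemLp u 2 volume) (hu' : MemLp u' 2 volume)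
    (hg : MemLp g 2 volume) (hg' : MemLp g' 2 volume) :
    IsWeakGradient (u + u') (g + g') := by
  intro φ hφ hc e
  simp only [Pi.add_apply, add_mul, inner_add_left]
  rw [integral_add (integrable_mul_test hu (continuous_fderiv_apply hφ e) (hc.fderiv_apply ℝ e))
    (integrable_mul_test hu' (continuous_fderiv_apply hφ e) (hc.fderiv_apply ℝ e)),
    integral_add (integrable_mul_test (hg.inner_const e) hφ.continuous hc)
    (integrable_mul_test (hg'.inner_const e) hφ.continuous hc), h φ hφ hc e, h' φ hφ hc e]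
  ring

lemma IsWeakGradient.smul {u : Rd d → ℝ} {g : Rd d → Rd d} (h : IsWeakGradient u g) (c : ℝ) :
    IsWeakGradient (c • u) (c • g) := by
  intro φ hφ hc e
  simp only [Pi.smul_apply, smul_eq_mul, real_inner_smul_left, mul_assoc]
  rw [integral_const_mul, integral_const_mul, h φ hφ hc e]
  ring

lemma isWeakGradient_zero : IsWeakGradient (0 : Rd d → ℝ) (0 : Rd d → Rd d) := by
  intro φ hφ hc e
  simp

lemma IsWeakGradient.unique {u : Rd d → ℝ} {g g' : Rd d → Rd d} (h : IsWeakGradient u g)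
    (h' : IsWeakGradient u g') (hg : MemLp g 2 volume) (hg' : MemLp g' 2 volume) :
    g =ᵐ[volume] g' := by
  have hl := hg.locallyIntegrable (by norm_num)
  have hl' := hg'.locallyIntegrable (by norm_num)
  refine ae_eq_of_integral_contDiff_smul_eq hl hl' fun φ hφ hc => ?_
  refine ext_inner_left ℝ fun e => ?_
  rw [← integral_inner (hl.integrable_smul_left_of_hasCompactSupport hφ.continuous hc),
    ← integral_inner (hl'.integrable_smul_left_of_hasCompactSupport hφ.continuous hc)]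
  have h1 := (h φ hφ hc e).symm.trans (h' φ hφ hc e)
  simp only [real_inner_smul_right]
  simp only [neg_inj] at h1
  simpa only [mul_comm, real_inner_comm] using h1

/-- Product rule. -/
lemma IsWeakGradient.mul {u : Rd d → ℝ} {g : Rd d → Rd d} (h : IsWeakGradient u g)
    (hu : MemLp u 2 volume) (hg : MemLp g 2 volume) {η : Rd d → ℝ} (hη : ContDiff ℝ (⊤ : ℕ∞) η)
    {ξ : Rd d → Rd d} (hξ : ∀ x e, fderiv ℝ η x e = ⟪ξ x, e⟫_ℝ) :
    IsWeakGradient (fun x => η x * u x) (fun x => η x • g x + u x • ξ x) := by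
  intro φ hφ hc e
  have hc' : HasCompactSupport (fun x => η x * φ x) := hc.mul_left
  have h1 := h (fun x => η x * φ x) (hη.mul hφ) hc' e
  have h2 : ∀ x, fderiv ℝ (fun x => η x * φ x) x e =
      η x * fderiv ℝ φ x e + fderiv ℝ η x e * φ x := by
    intro x
    rw [fderiv_fun_mul (hη.differentiable (by simp) x) (hφ.differentiable (by simp) x)]
    simp [mul_comm]
  simp only [h2, mul_add] at h1
  have i1 : Integrable (fun x => u x * (η x * fderiv ℝ φ x e)) :=
    integrable_mul_test hu (hη.continuous.mul (continuous_fderiv_apply hφ e))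
      (hc.fderiv_apply ℝ e).mul_left
  have i2 : Integrable (fun x => u x * (fderiv ℝ η x e * φ x)) :=
    integrable_mul_test hu ((continuous_fderiv_apply hη e).mul hφ.continuous) hc.mul_left
  have i3 : Integrable (fun x => ⟪g x, e⟫_ℝ * (η x * φ x)) :=
    integrable_mul_test (hg.inner_const e) (hη.continuous.mul hφ.continuous) hc'
  rw [integral_add i1 i2] at h1
  have h3 : ∀ x, ⟪η x • g x + u x • ξ x, e⟫_ℝ * φ x =
      ⟪g x, e⟫_ℝ * (η x * φ x) + u x * (fderiv ℝ η x e * φ x) := by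
    intro x
    rw [inner_add_left, real_inner_smul_left, real_inner_smul_left, hξ]
    ring
  simp only [h3]
  rw [integral_add i3 i2]
  have h4 : ∫ x, η x * u x * fderiv ℝ φ x e = ∫ x, u x * (η x * fderiv ℝ φ x e) :=
    integral_congr_ae (Filter.Eventually.of_forall fun x => by ring)
  rw [h4]
  linarith

/-- A test function has its gradient as weak gradient. -/
lemma isWeakGradient_of_test {u : Rd d → ℝ} (hu : ContDiff ℝ (⊤ : ℕ∞) u) :
    IsWeakGradient u (gradient u) := by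
  intro φ hφ hc e
  have h1 : ∀ x, ⟪gradient u x, e⟫_ℝ = fderiv ℝ u x e := fun x => by
    simp [gradient]
  simp only [h1]
  refine integral_mul_fderiv_eq_neg_fderiv_mul_of_integrable ?_ ?_ ?_ ?_ ?_
  · exact ((continuous_fderiv_apply hu e).mul hφ.continuous).integrable_of_hasCompactSupport
      hc.mul_left
  · exact (hu.continuous.mul (continuous_fderiv_apply hφ e)).integrable_of_hasCompactSupport
      (hc.fderiv_apply ℝ e).mul_left
  · exact (hu.continuous.mul hφ.continuous).integrable_of_hasCompactSupport hc.mul_left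
  · exact fun x _ => hu.differentiable (by simp) x
  · exact fun x _ => hφ.differentiable (by simp) x

/-- Translation on `L²`. -/
noncomputable def transl (h : Rd d) (v : LH d) : LH d :=
  Lp.compMeasurePreserving (fun x => x + h) (measurePreserving_add_right volume h) v

lemma transl_coeFn (h : Rd d) (v : LH d) : transl h v =ᵐ[volume] fun x => v (x + h) :=
  Lp.coeFn_compMeasurePreserving v _

lemma norm_transl (h : Rd d) (v : LH d) : ‖transl h v‖ = ‖v‖ :=
  Lp.norm_compMeasurePreserving v _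

lemma inner_eq_integral (v w : LH d) : ⟪v, w⟫_ℝ = ∫ x, v x * w x := by
  rw [L2.inner_def]
  refine integral_congr_ae (Filter.Eventually.of_forall fun x => ?_)
  simp [mul_comm]

/-- The translation estimate. -/
lemma norm_transl_sub_le (v : LH d) (g : LG d) (hg : IsWeakGradient v g) (h : Rd d) :
    ‖transl h v - v‖ ≤ ‖h‖ * ‖g‖ := by
  set w := transl h v - v with hw
  have hvl : LocallyIntegrable v volume := (Lp.memLp v).locallyIntegrable (by norm_num)
  have key : ∀ z : LH d, ⟪w, z⟫_ℝ ≤ ‖h‖ * ‖g‖ * ‖z‖ := by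
    have hd := Lp.dense_hasCompactSupport_contDiff (F := ℝ) (μ := (volume : Measure (Rd d)))
      (p := 2) (by norm_num)
    refine Dense.induction hd ?_ (isClosed_le (by fun_prop) (by fun_prop))
    rintro z ⟨φ, hzφ, hc, hφ⟩
    let ψ : Rd d → ℝ := fun x => φ (-x)
    have hψ : ContDiff ℝ (⊤ : ℕ∞) ψ := hφ.comp contDiff_neg
    have hψc : HasCompactSupport ψ := hc.comp_homeomorph (Homeomorph.neg (Rd d))
    let L : ℝ →L[ℝ] ℝ →L[ℝ] ℝ := ContinuousLinearMap.lsmul ℝ ℝ
    let F : Rd d → ℝ := (v : Rd d → ℝ) ⋆[L, volume] ψ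
    have hF : ∀ y, HasFDerivAt F
        (((v : Rd d → ℝ) ⋆[L.precompR (Rd d), volume] fderiv ℝ ψ) y) y :=
      fun y => hψc.hasFDerivAt_convolution_right L hvl (hψ.of_le (by simp)) y
    have hFval : ∀ y, F y = ⟪transl y v, z⟫_ℝ := by
      intro y
      rw [inner_eq_integral]
      have h1 : ∫ x, transl y v x * z x = ∫ x, v (x + y) * φ x := by
        refine integral_congr_ae ?_
        filter_upwards [transl_coeFn y v, hzφ] with x h1 h2
        rw [h1, h2]
      rw [h1]
      simp only [F, convolution_def, L, ContinuousLinearMap.lsmul_apply, smul_eq_mul, ψ]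
      rw [← integral_add_right_eq_self (fun t => v t * φ (-(y - t))) y]
      simp
    have hbound : ∀ y, ‖((v : Rd d → ℝ) ⋆[L.precompR (Rd d), volume] fderiv ℝ ψ) y‖ ≤
        ‖g‖ * ‖z‖ := by
      intro y
      refine ContinuousLinearMap.opNorm_le_bound _ (by positivity) fun e => ?_
      rw [convolution_precompR_apply L hvl (hψc.fderiv ℝ) (hψ.continuous_fderiv (by simp))]
      let θ : Rd d → ℝ := fun x => φ (x - y)
      have hθ : ContDiff ℝ (⊤ : ℕ∞) θ := hφ.comp (contDiff_id.sub contDiff_const)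
      have hθc : HasCompactSupport θ := hc.comp_homeomorph (Homeomorph.subRight y)
      have h1 := hg θ hθ hθc e
      have h2 : ∀ x, fderiv ℝ ψ (y - x) e = -fderiv ℝ θ x e := by
        intro x
        have hφd : ∀ x, HasFDerivAt φ (fderiv ℝ φ x) x :=
          fun x => (hφ.differentiable (by simp) x).hasFDerivAt
        have a1 : HasFDerivAt ψ ((fderiv ℝ φ (-(y - x))).comp (-ContinuousLinearMap.id ℝ _))
            (y - x) := (hφd _).comp (y - x) (hasFDerivAt_id _).neg
        have a2 : HasFDerivAt θ ((fderiv ℝ φ (x - y)).comp (ContinuousLinearMap.id ℝ _)) x :=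
          (hφd _).comp x ((hasFDerivAt_id x).sub_const y)
        rw [a1.fderiv, a2.fderiv]
        simp
      simp only [convolution_def, L, ContinuousLinearMap.lsmul_apply, smul_eq_mul, h2, mul_neg,
        integral_neg, h1, neg_neg]
      have hge : MemLp (fun x => ⟪g x, e⟫_ℝ) 2 volume := (Lp.memLp g).inner_const e
      have h3 : ∫ x, ⟪g x, e⟫_ℝ * θ x = ⟪hge.toLp, transl (-y) z⟫_ℝ := by
        rw [inner_eq_integral]
        refine integral_congr_ae ?_
        have h4 : ∀ᵐ x ∂(volume : Measure (Rd d)), z (x + -y) = φ (x + -y) :=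
          (measurePreserving_add_right volume (-y)).quasiMeasurePreserving.ae hzφ
        filter_upwards [hge.coeFn_toLp, transl_coeFn (-y) z, h4] with x h1 h2 h3
        rw [h1, h2, h3, ← sub_eq_add_neg]
      have h5 : ‖hge.toLp‖ ≤ ‖e‖ * ‖g‖ := by
        refine Lp.norm_le_mul_norm_of_ae_le_mul ?_
        filter_upwards [hge.coeFn_toLp] with x hx
        rw [hx, mul_comm]
        exact norm_inner_le_norm _ _
      rw [h3]
      calc ‖⟪hge.toLp, transl (-y) z⟫_ℝ‖ ≤ ‖hge.toLp‖ * ‖transl (-y) z‖ := norm_inner_le_norm _ _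
        _ ≤ (‖e‖ * ‖g‖) * ‖z‖ := by rw [norm_transl]; gcongr
        _ = ‖g‖ * ‖z‖ * ‖e‖ := by ring
    have hmv := (convex_univ (𝕜 := ℝ) (E := Rd d)).norm_image_sub_le_of_norm_hasFDerivWithin_le
      (fun y _ => (hF y).hasFDerivWithinAt) (fun y _ => hbound y) (Set.mem_univ 0)
      (Set.mem_univ h)
    have h0 : transl 0 v = v := by
      refine Lp.ext ?_
      filter_upwards [transl_coeFn 0 v] with x hx
      simpa using hx
    rw [hFval, hFval, h0, ← inner_sub_left, sub_zero] at hmv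
    calc ⟪w, z⟫_ℝ ≤ ‖⟪w, z⟫_ℝ‖ := le_abs_self _
      _ ≤ ‖g‖ * ‖z‖ * ‖h‖ := hmv
      _ = _ := by ring
  have h1 := key w
  rw [real_inner_self_eq_norm_sq] at h1
  by_cases h0 : ‖w‖ = 0
  · rw [h0]; positivity
  · have hpos : 0 < ‖w‖ := lt_of_le_of_ne (norm_nonneg _) (Ne.symm h0)
    nlinarith

/-- Concentration estimate on a set of small measure. -/
lemma setLIntegral_sq_le (v : LH d) (g : LG d) (hg : IsWeakGradient v g) (A : Set (Rd d))
    (t : ℝ) :
    volume (Metric.ball (0 : Rd d) t) * ∫⁻ x in A, ‖v x‖ₑ ^ 2 ≤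
      volume (Metric.ball (0 : Rd d) t) * ENNReal.ofReal (2 * t ^ 2 * ‖g‖ ^ 2) +
        2 * volume A * ENNReal.ofReal (‖v‖ ^ 2) := by
  set B := Metric.ball (0 : Rd d) t with hB
  have hvm : Measurable v := (Lp.stronglyMeasurable v).measurable
  have hm2 : Measurable (fun q : Rd d × Rd d => ‖v (q.2 + q.1)‖ₑ ^ 2) := by
    have : Measurable (fun q : Rd d × Rd d => v (q.2 + q.1)) := hvm.comp (by fun_prop)
    exact this.enorm.pow_const 2
  have h1 : ∀ h ∈ B, ∫⁻ x in A, ‖v x‖ₑ ^ 2 ≤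
      ENNReal.ofReal (2 * t ^ 2 * ‖g‖ ^ 2) + 2 * ∫⁻ x in A, ‖v (x + h)‖ₑ ^ 2 := by
    intro h hh
    have hp : ∀ x, ‖v x‖ₑ ^ 2 ≤ 2 * ‖v (x + h) - v x‖ₑ ^ 2 + 2 * ‖v (x + h)‖ₑ ^ 2 := by
      intro x
      have : ‖v x‖ ^ 2 ≤ 2 * ‖v (x + h) - v x‖ ^ 2 + 2 * ‖v (x + h)‖ ^ 2 := by
        simp only [Real.norm_eq_abs, sq_abs]
        nlinarith [sq_nonneg (v (x + h) - v x + v (x + h))]
      have h2 := ENNReal.ofReal_le_ofReal this
      rw [ENNReal.ofReal_add (by positivity) (by positivity), ENNReal.ofReal_mul (by norm_num),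
        ENNReal.ofReal_mul (by norm_num), ENNReal.ofReal_pow (norm_nonneg _),
        ENNReal.ofReal_pow (norm_nonneg _), ENNReal.ofReal_pow (norm_nonneg _), ofReal_norm,
        ofReal_norm, ofReal_norm] at h2
      simpa using h2
    have hvh : Measurable (fun x => v (x + h)) := hvm.comp (by fun_prop)
    have h3 : ∫⁻ x, ‖v (x + h) - v x‖ₑ ^ 2 ≤ ENNReal.ofReal (t ^ 2 * ‖g‖ ^ 2) := by
      have h4 : ∫⁻ x, ‖v (x + h) - v x‖ₑ ^ 2 = ∫⁻ x, ‖(transl h v - v) x‖ₑ ^ 2 := by
        refine lintegral_congr_ae ?_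
        filter_upwards [Lp.coeFn_sub (transl h v) v, transl_coeFn h v] with x h1 h2
        rw [h1, Pi.sub_apply, h2]
      rw [h4, lintegral_enorm_sq]
      refine ENNReal.ofReal_le_ofReal ?_
      rw [← mul_pow]
      have h5 : ‖h‖ ≤ t := (mem_ball_zero_iff.mp hh).le
      gcongr
      exact (norm_transl_sub_le v g hg h).trans (by gcongr)
    calc ∫⁻ x in A, ‖v x‖ₑ ^ 2
        ≤ ∫⁻ x in A, (2 * ‖v (x + h) - v x‖ₑ ^ 2 + 2 * ‖v (x + h)‖ₑ ^ 2) := lintegral_mono hp
      _ = 2 * (∫⁻ x in A, ‖v (x + h) - v x‖ₑ ^ 2) + 2 * ∫⁻ x in A, ‖v (x + h)‖ₑ ^ 2 := by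
        have hs : Measurable (fun x => ‖v (x + h) - v x‖ₑ ^ 2) := (hvh.sub hvm).enorm.pow_const 2
        rw [lintegral_add_left (hs.const_mul 2), lintegral_const_mul _ hs,
          lintegral_const_mul _ (hvh.enorm.pow_const 2)]
      _ ≤ 2 * ENNReal.ofReal (t ^ 2 * ‖g‖ ^ 2) + 2 * ∫⁻ x in A, ‖v (x + h)‖ₑ ^ 2 := by
        gcongr
        exact (setLIntegral_le_lintegral _ _).trans h3
      _ = _ := by
        rw [mul_assoc, ENNReal.ofReal_mul (p := 2) (by norm_num)]
        simp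
  have h2 : ∫⁻ h in B, ∫⁻ x in A, ‖v (x + h)‖ₑ ^ 2 ≤ volume A * ENNReal.ofReal (‖v‖ ^ 2) := by
    rw [lintegral_lintegral_swap hm2.aemeasurable]
    calc ∫⁻ x in A, ∫⁻ h in B, ‖v (x + h)‖ₑ ^ 2 ≤ ∫⁻ x in A, ENNReal.ofReal (‖v‖ ^ 2) := by
          refine lintegral_mono fun x => (setLIntegral_le_lintegral _ _).trans ?_
          rw [lintegral_add_left_eq_self (fun y => ‖v y‖ₑ ^ 2) x, lintegral_enorm_sq]
      _ = _ := by simp [mul_comm]
  calc volume B * ∫⁻ x in A, ‖v x‖ₑ ^ 2 = ∫⁻ h in B, ∫⁻ x in A, ‖v x‖ₑ ^ 2 := by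
        simp [mul_comm]
    _ ≤ ∫⁻ h in B, (ENNReal.ofReal (2 * t ^ 2 * ‖g‖ ^ 2) + 2 * ∫⁻ x in A, ‖v (x + h)‖ₑ ^ 2) :=
        setLIntegral_mono' Metric.isOpen_ball.measurableSet h1
    _ = volume B * ENNReal.ofReal (2 * t ^ 2 * ‖g‖ ^ 2) +
          2 * ∫⁻ h in B, ∫⁻ x in A, ‖v (x + h)‖ₑ ^ 2 := by
        rw [lintegral_add_left measurable_const, lintegral_const_mul' _ _ (by norm_num)]
        simp [mul_comm]
    _ ≤ _ := by
        rw [mul_assoc 2 (volume A)]
        gcongr

end Pool.Agent.P.MP_5ab436_an
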